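import Pool.Agent.R921.GRT.St

/-! MP_446dfa_ag: the representation as linear maps. -/

set_option autoImplicit false

namespace Pool.Agent.R921.GRT

open State

lemma hd_add (φ χ : Fn) (s : State) : hd (φ + χ) s = hd φ s + hd χ s := by
  match s with
  | G [] => simp
  | G (0 :: L) => simp
  | G ((n + 1) :: L) => simp
  | S t [] l => simp
  | S t (0 :: L) l => simp
  | S t ((n + 1) :: L) l => simp

lemma hd_smul (c : ℚ) (φ : Fn) (s : State) : hd (c • φ) s = c * hd φ s := by
  match s with
  | G [] => simp
  | G (0 :: L) => simp
  | G ((n + 1) :: L) => simp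
  | S t [] l => simp
  | S t (0 :: L) l => simp
  | S t ((n + 1) :: L) l => simp

lemma pp_add (φ χ : Fn) (s : State) : pp (φ + χ) s = pp φ s + pp χ s := by
  match s with
  | G [] => simp
  | G (0 :: L) => simp
  | G ((n + 1) :: L) => simp
  | S t [] l => simp
  | S t (0 :: L) l => simp
  | S t ((n + 1) :: L) l => simp

lemma pp_smul (c : ℚ) (φ : Fn) (s : State) : pp (c • φ) s = c * pp φ s := by
  match s with
  | G [] => simp
  | G (0 :: L) => simp
  | G ((n + 1) :: L) => simp
  | S t [] l => simp
  | S t (0 :: L) l => simp
  | S t ((n + 1) :: L) l => simp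

lemma md_add (φ χ : Fn) (t : Bool) (L : List ℕ) (l : ℕ) :
    md (φ + χ) t L l = md φ t L l + md χ t L l := by
  rcases h : L[l + 1]? with _ | _ | n
  · simp [h]
  · simp [h]; ring
  · simp [h]

lemma md_smul (c : ℚ) (φ : Fn) (t : Bool) (L : List ℕ) (l : ℕ) :
    md (c • φ) t L l = c * md φ t L l := by
  rcases h : L[l + 1]? with _ | _ | n
  · simp [h]
  · simp [h]
  · simp [h]

lemma rm_add (φ χ : Fn) (t : Bool) (L : List ℕ) (l : ℕ) :
    rm (φ + χ) t L l = rm φ t L l + rm χ t L l := by
  rcases h : L[l + 1]? with _ | _ | n
  · simp [h]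
  · simp [h]; ring
  · simp [h]

lemma rm_smul (c : ℚ) (φ : Fn) (t : Bool) (L : List ℕ) (l : ℕ) :
    rm (c • φ) t L l = c * rm φ t L l := by
  rcases h : L[l + 1]? with _ | _ | n
  · simp [h]
  · simp [h]; ring
  · simp [h]

def Ml (b : Bool) : Module.End ℚ Fn where
  toFun := Mf b
  map_add' φ χ := by
    funext s
    cases s with
    | G L => simp [hd_add]
    | S t L l => simp only [Mf_S, Pi.add_apply]; split_ifs <;> simp [hd_add, md_add]
  map_smul' c φ := by
    funext s
    cases s with
    | G L => simp [hd_smul]
    | S t L l => simp only [Mf_S, Pi.smul_apply]; split_ifs <;> simp [hd_smul, md_smul]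

def Rl (b : Bool) : Module.End ℚ Fn where
  toFun := Rf b
  map_add' φ χ := by
    funext s
    cases s with
    | G L => simp
    | S t L l => simp only [Rf_S, Pi.add_apply]; split_ifs <;> simp [pp_add, rm_add]
  map_smul' c φ := by
    funext s
    cases s with
    | G L => simp
    | S t L l => simp only [Rf_S, Pi.smul_apply]; split_ifs <;> simp [pp_smul, rm_smul]

def Zl : Module.End ℚ Fn where
  toFun := Zf
  map_add' φ χ := by
    funext s
    cases s with
    | G L => simp [pp_add]
    | S t L l => simp
  map_smul' c φ := by
    funext s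
    cases s with
    | G L => simp [pp_smul]
    | S t L l => simp

@[simp] lemma Ml_apply (b : Bool) (φ : Fn) : Ml b φ = Mf b φ := rfl
@[simp] lemma Rl_apply (b : Bool) (φ : Fn) : Rl b φ = Rf b φ := rfl
@[simp] lemma Zl_apply (φ : Fn) : Zl φ = Zf φ := rfl

/-- `A = t₁₂` -/
abbrev Ao : Module.End ℚ Fn := Ml false
abbrev Bo : Module.End ℚ Fn := Ml true
abbrev Xo : Module.End ℚ Fn := Rl false
abbrev Yo : Module.End ℚ Fn := Rl true

lemma e1 : Ao * Bo = Bo * Ao := LinearMap.ext fun φ => M_comm φ false
lemma e2 : Ao * Yo = Yo * Ao := LinearMap.ext fun φ => MR_comm φ false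
lemma e3 : Bo * Xo = Xo * Bo := LinearMap.ext fun φ => MR_comm φ true
lemma e4 : Xo * (Yo + Zl) = (Yo + Zl) * Xo := LinearMap.ext fun φ => RR_comm φ false
lemma e4' : Yo * (Xo + Zl) = (Xo + Zl) * Yo := LinearMap.ext fun φ => RR_comm φ true
lemma e5 : Zl * (Xo + Yo) = (Xo + Yo) * Zl := LinearMap.ext fun φ => ZR_comm φ false
lemma e6 : Zl * (Bo - Ao + Xo) = (Bo - Ao + Xo) * Zl := LinearMap.ext fun φ => ZM_comm φ false

/-- The relations of the Drinfeld-Kohno Lie algebra `𝔱₄` (infinitesimal pure braid relations on four
strands), for elements `t i j` of an associative algebra. -/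
structure Braid {B : Type} [Ring B] (t : Fin 4 → Fin 4 → B) : Prop where
  symm : ∀ i j, t i j = t j i
  comm : ∀ i j k l, i ≠ j → i ≠ k → i ≠ l → j ≠ k → j ≠ l → k ≠ l → t i j * t k l = t k l * t i j
  tri : ∀ i j k, i ≠ j → i ≠ k → j ≠ k → t i j * (t i k + t j k) = (t i k + t j k) * t i j



section
variable {E : Type} [Ring E] {a b x y z : E}

/-- the matrix of the representation -/
def mat (a b x y z : E) : Fin 4 → Fin 4 → E :=
  ![![0, a, b - a + x, -b + y + z],
    ![a, 0, -x, -z],
    ![b - a + x, -x, 0, -y],
    ![-b + y + z, -z, -y, 0]]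

theorem braid_mat (e1 : a * b = b * a) (e2 : a * y = y * a) (e3 : b * x = x * b)
    (e4 : x * (y + z) = (y + z) * x) (e4' : y * (x + z) = (x + z) * y)
    (e5 : z * (x + y) = (x + y) * z) (e6 : z * (b - a + x) = (b - a + x) * z) :
    Braid (mat a b x y z) := by
  refine ⟨?_, ?_, ?_⟩
  · intro i j
    fin_cases i <;> fin_cases j <;> rfl
  · have c1 : a * -y = -y * a := by linear_combination (norm := noncomm_ring) -e2
    have c2 : (b - a + x) * -z = -z * (b - a + x) := by linear_combination (norm := noncomm_ring) e6
    have c3 : (-b + y + z) * -x = -x * (-b + y + z) := by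
      linear_combination (norm := noncomm_ring) e3 + e4
    intro i j k l h1 h2 h3 h4 h5 h6
    fin_cases i <;> fin_cases j <;> fin_cases k <;> fin_cases l <;>
      first
        | exact absurd rfl h1
        | exact absurd rfl h2
        | exact absurd rfl h3
        | exact absurd rfl h4
        | exact absurd rfl h5
        | exact absurd rfl h6
        | exact c1
        | exact c2
        | exact c3
        | exact c1.symm
        | exact c2.symm
        | exact c3.symm
  · have d1 : a * ((b - a + x) + -x) = ((b - a + x) + -x) * a := by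
      linear_combination (norm := noncomm_ring) e1
    have d2 : (b - a + x) * (a + -x) = (a + -x) * (b - a + x) := by
      linear_combination (norm := noncomm_ring) -e1 - e3
    have d3 : -x * (a + (b - a + x)) = (a + (b - a + x)) * -x := by
      linear_combination (norm := noncomm_ring) e3
    have d4 : a * ((-b + y + z) + -z) = ((-b + y + z) + -z) * a := by
      linear_combination (norm := noncomm_ring) -e1 + e2
    have d5 : (-b + y + z) * (a + -z) = (a + -z) * (-b + y + z) := by
      linear_combination (norm := noncomm_ring) e1 - e2 - e6 + e5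
    have d6 : -z * (a + (-b + y + z)) = (a + (-b + y + z)) * -z := by
      linear_combination (norm := noncomm_ring) e6 - e5
    have d7 : (b - a + x) * ((-b + y + z) + -y) = ((-b + y + z) + -y) * (b - a + x) := by
      linear_combination (norm := noncomm_ring) e1 + e3 - e6
    have d8 : (-b + y + z) * ((b - a + x) + -y) = ((b - a + x) + -y) * (-b + y + z) := by
      linear_combination (norm := noncomm_ring) -e1 - e3 + e2 + e6 + e4'
    have d9 : -y * ((b - a + x) + (-b + y + z)) = ((b - a + x) + (-b + y + z)) * -y := by
      linear_combination (norm := noncomm_ring) -e2 - e4'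
    have d10 : -x * (-z + -y) = (-z + -y) * -x := by
      linear_combination (norm := noncomm_ring) e4
    have d11 : -z * (-x + -y) = (-x + -y) * -z := by
      linear_combination (norm := noncomm_ring) e5
    have d12 : -y * (-x + -z) = (-x + -z) * -y := by
      linear_combination (norm := noncomm_ring) e4'
    have sw : ∀ {u v w : E}, u * (v + w) = (v + w) * u → u * (w + v) = (w + v) * u := by
      intro u v w h
      rw [add_comm w v]; exact h
    intro i j k h1 h2 h3
    fin_cases i <;> fin_cases j <;> fin_cases k <;>
      first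
        | exact absurd rfl h1
        | exact absurd rfl h2
        | exact absurd rfl h3
        | exact d1
        | exact sw d1
        | exact d2
        | exact sw d2
        | exact d3
        | exact sw d3
        | exact d4
        | exact sw d4
        | exact d5
        | exact sw d5
        | exact d6
        | exact sw d6
        | exact d7
        | exact sw d7
        | exact d8
        | exact sw d8
        | exact d9
        | exact sw d9
        | exact d10
        | exact sw d10
        | exact d11
        | exact sw d11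
        | exact d12
        | exact sw d12

end

theorem braid_tt : Braid (mat Ao Bo Xo Yo Zl) := braid_mat e1 e2 e3 e4 e4' e5 e6

end Pool.Agent.R921.GRT
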