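import Pool.Agent.R921.GRT.Prim
import Pool.Agent.H217R3.DM.Comp

/-! MP_446dfa_ag: the Grothendieck-Teichmueller Lie algebra `𝔤𝔯𝔱₁` and its homogeneous parts. -/

set_option autoImplicit false

namespace Pool.Agent.R921.GRT

open Pool.Agent.H777R4.DM

attribute [local instance 100] LieRing.ofAssociativeRing

/-- Drinfeld's Lie algebra `𝔤𝔯𝔱₁`: the Lie polynomials `ψ(x₀, x₁)` that satisfy the antisymmetry,
hexagon, special derivation and pentagon equations (in all associative `ℚ`-algebras). -/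
structure IsGRT (ψ : A) : Prop where
  mem : ψ ∈ LieX
  anti : ∀ (B : Type) [Ring B] [Algebra ℚ B] (a b : B), ev b a ψ = - ev a b ψ
  hexa : ∀ (B : Type) [Ring B] [Algebra ℚ B] (a b c : B), a + b + c = 0 →
    ev a b ψ + ev b c ψ + ev c a ψ = 0
  spec : ∀ (B : Type) [Ring B] [Algebra ℚ B] (a b c : B), a + b + c = 0 →
    (b * ev a b ψ - ev a b ψ * b) + (c * ev a c ψ - ev a c ψ * c) = 0
  pent : ∀ (B : Type) [Ring B] [Algebra ℚ B] (t : Fin 4 → Fin 4 → B), Braid t → Pentagon ψ t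

section
variable {B : Type} [Ring B] [Algebra ℚ B]

open Polynomial in
lemma ev_poly_wd (a b : B) (u : List (Fin 2)) :
    ev (C a * X : B[X]) (C b * X) (wd u) = C (ev a b (wd u)) * X ^ u.length := by
  induction u with
  | nil => rw [ev_nil, ev_nil, map_one, one_mul, List.length_nil, pow_zero]
  | cons i u ih =>
    rw [ev_cons, ev_cons, ih, List.length_cons, map_mul, pow_succ]
    have hX : ∀ (p : B[X]), X * p = p * X := fun p => X_mul
    split_ifs
    · rw [mul_assoc, hX, mul_assoc, mul_assoc]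
    · rw [mul_assoc, hX, mul_assoc, mul_assoc]

open Polynomial in
/-- evaluation of the homogeneous parts -/
lemma ev_poly (a b : B) (ψ : A) (w : ℕ) :
    (ev (C a * X : B[X]) (C b * X) ψ).coeff w = ev a b (comp w ψ) := by
  induction ψ using al_induction with
  | h1 u =>
    rw [ev_poly_wd, coeff_C_mul, coeff_X_pow]
    unfold H777R4.DM.comp
    rw [lext_wd]
    by_cases h : w = u.length
    · rw [if_pos h, if_pos h.symm, mul_one]
    · rw [if_neg h, if_neg (Ne.symm h), mul_zero, map_zero]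
  | h2 P Q hP hQ => rw [map_add, coeff_add, hP, hQ, map_add, map_add]
  | h3 c P hP => rw [map_smul, coeff_smul, hP, map_smul, map_smul]

open Polynomial in
omit [Algebra ℚ B] in
lemma CX_mul (s t : B) : (C s * X * (C t * X) : B[X]) = C (s * t) * X ^ 2 := by
  rw [map_mul, pow_two, mul_assoc, ← mul_assoc X, X_mul, mul_assoc, mul_assoc]

open Polynomial in
lemma braid_poly {t : Fin 4 → Fin 4 → B} (ht : Braid t) :
    Braid (fun i j => (C (t i j) * X : B[X])) := by
  refine ⟨?_, ?_, ?_⟩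
  · intro i j
    show C (t i j) * X = C (t j i) * X
    rw [ht.symm i j]
  · intro i j k l h1 h2 h3 h4 h5 h6
    show C (t i j) * X * (C (t k l) * X) = C (t k l) * X * (C (t i j) * X)
    rw [CX_mul, CX_mul, ht.comm i j k l h1 h2 h3 h4 h5 h6]
  · intro i j k h1 h2 h3
    show C (t i j) * X * (C (t i k) * X + C (t j k) * X) =
      (C (t i k) * X + C (t j k) * X) * (C (t i j) * X)
    rw [← add_mul, ← map_add, CX_mul, CX_mul, ht.tri i j k h1 h2 h3]

end

open Polynomial in
theorem isGRT_comp {ψ : A} (h : IsGRT ψ) (w : ℕ) : IsGRT (comp w ψ) := by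
  refine ⟨Pool.Agent.H217R3.DMC.LieX_le h.mem w, ?_, ?_, ?_, ?_⟩
  · intro B _ _ a b
    have h1 := congrArg (fun p : B[X] => p.coeff w) (h.anti B[X] (C a * X) (C b * X))
    simp only [coeff_neg, ev_poly] at h1
    exact h1
  · intro B _ _ a b c habc
    have h0 : (C a * X + C b * X + C c * X : B[X]) = 0 := by
      rw [← add_mul, ← add_mul, ← map_add, ← map_add, habc, map_zero, zero_mul]
    have h1 := congrArg (fun p : B[X] => p.coeff w) (h.hexa B[X] _ _ _ h0)
    simp only [coeff_add, ev_poly, coeff_zero] at h1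
    exact h1
  · intro B _ _ a b c habc
    have h0 : (C a * X + C b * X + C c * X : B[X]) = 0 := by
      rw [← add_mul, ← add_mul, ← map_add, ← map_add, habc, map_zero, zero_mul]
    have h1 := congrArg (fun p : B[X] => p.coeff (w + 1)) (h.spec B[X] _ _ _ h0)
    have e1 : ∀ (s : B) (p : B[X]), (C s * X * p).coeff (w + 1) = s * p.coeff w := by
      intro s p
      rw [mul_assoc, coeff_C_mul, coeff_X_mul]
    have e2 : ∀ (s : B) (p : B[X]), (p * (C s * X)).coeff (w + 1) = p.coeff w * s := by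
      intro s p
      rw [← mul_assoc, coeff_mul_X, coeff_mul_C]
    simp only [coeff_add, coeff_sub, e1, e2, ev_poly, coeff_zero] at h1
    exact h1
  · intro B _ _ t ht
    have h1 := congrArg (fun p : B[X] => p.coeff w) (h.pent B[X] _ (braid_poly ht))
    simp only [coeff_add, ← add_mul, ← map_add, ev_poly] at h1
    exact h1

lemma isGRT_sub {ψ₁ ψ₂ : A} (h₁ : IsGRT ψ₁) (h₂ : IsGRT ψ₂) (κ : ℚ) : IsGRT (ψ₂ - κ • ψ₁) := by
  refine ⟨LieX.sub_mem h₂.mem (LieX.smul_mem κ h₁.mem), ?_, ?_, ?_, ?_⟩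
  · intro B _ _ a b
    simp only [map_sub, map_smul, h₁.anti B a b, h₂.anti B a b]
    module
  · intro B _ _ a b c habc
    have e1 := h₁.hexa B a b c habc
    have e2 := h₂.hexa B a b c habc
    simp only [map_sub, map_smul]
    have : ev a b ψ₂ - κ • ev a b ψ₁ + (ev b c ψ₂ - κ • ev b c ψ₁) + (ev c a ψ₂ - κ • ev c a ψ₁) =
        (ev a b ψ₂ + ev b c ψ₂ + ev c a ψ₂) - κ • (ev a b ψ₁ + ev b c ψ₁ + ev c a ψ₁) := by module
    rw [this, e1, e2, smul_zero, sub_zero]
  · intro B _ _ a b c habc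
    have e1 := h₁.spec B a b c habc
    have e2 := h₂.spec B a b c habc
    simp only [map_sub, map_smul]
    have : b * (ev a b ψ₂ - κ • ev a b ψ₁) - (ev a b ψ₂ - κ • ev a b ψ₁) * b +
        (c * (ev a c ψ₂ - κ • ev a c ψ₁) - (ev a c ψ₂ - κ • ev a c ψ₁) * c) =
        ((b * ev a b ψ₂ - ev a b ψ₂ * b) + (c * ev a c ψ₂ - ev a c ψ₂ * c)) -
        κ • ((b * ev a b ψ₁ - ev a b ψ₁ * b) + (c * ev a c ψ₁ - ev a c ψ₁ * c)) := by
      rw [mul_sub, sub_mul, mul_sub, sub_mul, mul_smul_comm, mul_smul_comm, smul_mul_assoc,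
        smul_mul_assoc]
      module
    rw [this, e1, e2, smul_zero, sub_zero]
  · intro B _ _ t ht
    have e1 := h₁.pent B t ht
    have e2 := h₂.pent B t ht
    unfold Pentagon at *
    simp only [map_sub, map_smul]
    rw [← sub_eq_zero] at e1 e2 ⊢
    have : ∀ (p q r s v p' q' r' s' v' : B),
        (p - κ • p' + (q - κ • q') - (r - κ • r' + (s - κ • s') + (v - κ • v'))) =
        (p + q - (r + s + v)) - κ • (p' + q' - (r' + s' + v')) := by
      intro p q r s v p' q' r' s' v'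
      module
    rw [this, e1, e2, smul_zero, sub_zero]

lemma isGRT_zero : IsGRT (0 : A) := by
  refine ⟨LieX.zero_mem, ?_, ?_, ?_, ?_⟩
  · intro B _ _ a b; simp
  · intro B _ _ a b c _; simp
  · intro B _ _ a b c _; simp
  · intro B _ _ t _; simp [Pentagon]

lemma isGRT_add {ψ₁ ψ₂ : A} (h₁ : IsGRT ψ₁) (h₂ : IsGRT ψ₂) : IsGRT (ψ₁ + ψ₂) := by
  have := isGRT_sub h₂ h₁ (-1)
  rwa [neg_smul, one_smul, sub_neg_eq_add] at this

lemma isGRT_smul {ψ : A} (h : IsGRT ψ) (c : ℚ) : IsGRT (c • ψ) := by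
  have := isGRT_sub h isGRT_zero (-c)
  rwa [neg_smul, sub_neg_eq_add, zero_add] at this

lemma isGRT_sum {ι : Type} (s : Finset ι) (f : ι → A) (h : ∀ i ∈ s, IsGRT (f i)) :
    IsGRT (∑ i ∈ s, f i) :=
  Finset.sum_induction f IsGRT (fun _ _ => isGRT_add) isGRT_zero h

end Pool.Agent.R921.GRT
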