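import Pool.Agent.R921.GRT.Small
import Pool.Agent.H777R4.DM.AsmN
import Pool.Agent.H630R3.DM.FreeP

/-! MP_446dfa_ag: two linearly independent elements of `𝔤𝔯𝔱₁` generate a free Lie algebra. -/

set_option autoImplicit false

namespace Pool.Agent.R921.GRT

open Pool.Agent.H777R4.DM

attribute [local instance 100] LieRing.ofAssociativeRing

lemma grt_prof {ψ : A} {w : ℕ} (hψ : IsGRT ψ) (hw : LenHom ψ w)
    (h0 : ψ ≠ 0) : ∃ r k, Prof ψ w r k := by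
  classical
  have small := grt_small hψ
  have hex : ∃ c, ∃ u, co ψ u ≠ 0 ∧ u.count 1 = c := by
    obtain ⟨u, hu⟩ := exists_co_ne h0
    exact ⟨_, u, hu, rfl⟩
  obtain ⟨r, hr⟩ : ∃ r, r = Nat.find hex := ⟨_, rfl⟩
  have hspec : ∃ u, co ψ u ≠ 0 ∧ u.count 1 = r := by rw [hr]; exact Nat.find_spec hex
  have hmin : ∀ u, co ψ u ≠ 0 → r ≤ u.count 1 := by
    intro u hu
    rw [hr]
    exact Nat.find_min' hex ⟨u, hu, rfl⟩
  have hr1 : 1 ≤ r := by
    obtain ⟨u, hu, h1⟩ := hspec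
    rw [← h1]
    exact (small u hu).2.1
  have hF0 : ∀ v, co (Fp r ψ 0) v = if v.length = r then co ψ (wordX v) else 0 := by
    intro v
    rw [co_Fp, List.replicate_zero, List.append_nil]
  have hR : ∀ j : ℕ, ((j : ℚ) + 1) • Fp r ψ (j + 1) = - dl (Fp r ψ j) := by
    intro j
    have := congrArg (dp r) (Pool.Agent.H777R4.DM.R0.taskR0 ψ hψ.mem (grt_c hψ).1 j)
    rw [map_smul, map_neg, dp_dl] at this
    exact this
  have hprim : ∀ j, Prim (Fp r ψ j) := by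
    intro j
    induction j with
    | zero => exact grt_prim0 hψ r hr1 hmin _ hF0
    | succ j ih =>
      have h1 : Fp r ψ (j + 1) = ((j : ℚ) + 1)⁻¹ • (- dl (Fp r ψ j)) := by
        rw [← hR j, smul_smul, inv_mul_cancel₀ (by positivity), one_smul]
      rw [h1]
      exact prim_smul _ (prim_neg (Pool.Agent.H237R3.DM.taskDelta _ ih))
  obtain ⟨k, v, hk, hv, hkv⟩ := Pool.Agent.H988R3.DM.taskTwoD H777DSH.H610.taskTwoA taskTwoB
    Pool.Agent.H352.DSH.taskTwoC ψ hψ.mem (grt_c hψ).1 (grt_c hψ).2 (fun u hu => (small u hu).1) r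
    hr1 hmin hspec (Fp r ψ 0) hF0 (hprim 0)
  have hne : Fp r ψ k ≠ 0 := by
    intro h
    have h1 := co_Fp r ψ k v
    rw [h, co_zero, if_pos hv] at h1
    exact hkv h1.symm
  have hbd : ∀ j, Fp r ψ j ≠ 0 → j ≤ w := by
    intro j hj
    obtain ⟨v, hv⟩ := exists_co_ne hj
    have := (co_Fp_ne hw hv).2
    omega
  refine ⟨r, Nat.findGreatest (fun j => Fp r ψ j ≠ 0) w, hr1, ?_, hw, hmin, ?_, ?_, hprim, hR⟩
  · exact le_trans hk (Nat.le_findGreatest (hbd k hne) hne)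
  · exact Nat.findGreatest_spec (P := fun j => Fp r ψ j ≠ 0) (hbd k hne) hne
  · intro j hj
    by_contra hcon
    exact Nat.findGreatest_is_greatest hj (hbd j hcon) hcon

theorem grt_homog (ψ₁ ψ₂ : A) (w₁ w₂ : ℕ) (h₁ : IsGRT ψ₁) (h₂ : IsGRT ψ₂) (hw₁ : LenHom ψ₁ w₁)
    (hw₂ : LenHom ψ₂ w₂) (hli : ∀ a b : ℚ, a • ψ₁ + b • ψ₂ = 0 → a = 0 ∧ b = 0) :
    Function.Injective (Phi ψ₁ ψ₂) := by
  have kl1 : TaskKL1 := Pool.Agent.H835R4.KL1.taskKL1
  have kl2 : TaskKL2 := Pool.Agent.H428R3.DMKL2.kl2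
  have l1 : TaskLead1 := Pool.Agent.H337R3.Lead1.lead1
  have l2 : TaskLead2 := Pool.Agent.H777R4.DM.Lead2.lead2_ok
  have sh : TaskShear := taskShear_proof
  have n1 : ψ₁ ≠ 0 := by
    intro h
    have := hli 1 0 (by rw [h]; simp)
    exact one_ne_zero this.1
  have n2 : ψ₂ ≠ 0 := by
    intro h
    have := hli 0 1 (by rw [h]; simp)
    exact one_ne_zero this.2
  obtain ⟨r₁, k₁, P₁⟩ := grt_prof h₁ hw₁ n1
  obtain ⟨r₂, k₂, P₂⟩ := grt_prof h₂ hw₂ n2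
  by_cases hA : ∀ c : ℚ, Fp r₂ ψ₂ k₂ ≠ c • Fp r₁ ψ₁ k₁
  · refine caseA kl1 kl2 l1 l2 P₁ P₂ ?_ hA
    intro c hc
    have hc0 : c ≠ 0 := by
      rintro rfl
      rw [zero_smul] at hc
      exact P₁.top hc
    apply hA c⁻¹
    rw [hc, smul_smul, inv_mul_cancel₀ hc0, one_smul]
  · push Not at hA
    obtain ⟨κ, hκ⟩ := hA
    have hκ0 : κ ≠ 0 := by
      rintro rfl
      rw [zero_smul] at hκ
      exact P₂.top hκ
    -- depths agree
    have hr : r₁ = r₂ := by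
      obtain ⟨v, hv⟩ := exists_co_ne P₁.top
      have h1 := Fp_lenHom _ _ _ v hv
      have h2 : co (Fp r₂ ψ₂ k₂) v ≠ 0 := by
        rw [hκ, co_smul]; exact mul_ne_zero hκ0 hv
      have h3 := Fp_lenHom _ _ _ v h2
      omega
    subst hr
    apply sh ψ₁ ψ₂ κ
    by_cases hw : w₁ = w₂
    · subst hw
      have hk : k₁ = k₂ := by
        obtain ⟨v, hv⟩ := exists_co_ne P₁.top
        have h1 := (co_Fp_ne P₁.hom hv).2
        have h2 : co (Fp r₁ ψ₂ k₂) v ≠ 0 := by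
          rw [hκ, co_smul]; exact mul_ne_zero hκ0 hv
        have h3 := (co_Fp_ne P₂.hom h2).2
        omega
      subst hk
      have hne : ψ₂ - κ • ψ₁ ≠ 0 := by
        intro h
        have := hli (-κ) 1 (by rw [← h]; module)
        exact one_ne_zero this.2
      obtain ⟨r', k', P'⟩ := grt_prof (isGRT_sub h₁ h₂ κ)
        (lenHom_sub hw₁ hw₂ κ) hne
      have hd : ∀ v, co (Fp r₁ ψ₁ k₁) v ≠ 0 → co (Fp r' (ψ₂ - κ • ψ₁) k') v ≠ 0 → False := by
        intro v hv1 hv2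
        have e1 := co_Fp_ne P₁.hom hv1
        have e2 := co_Fp_ne P'.hom hv2
        have e3 : r' = r₁ := by omega
        subst e3
        have e4 : k' = k₁ := by omega
        subst e4
        apply P'.top
        rw [Fp_sub, hκ, sub_self]
      refine caseA kl1 kl2 l1 l2 P₁ P' (not_prop P₁.top ?_) (not_prop P'.top ?_)
      · intro v hv
        by_contra hcon
        exact hd v hv hcon
      · intro v hv
        by_contra hcon
        exact hd v hcon hv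
    · exact caseB2 kl1 kl2 l1 l2 P₁ P₂ κ hκ0 hw hκ

/-- the case of linearly independent lowest parts -/
lemma grt_low_indep {ψ₁ ψ₂ : A} (h₁ : IsGRT ψ₁)
    (h₂ : IsGRT ψ₂) {w₁ w₂ : ℕ} (l₁ : ∀ u, co ψ₁ u ≠ 0 → w₁ ≤ u.length)
    (l₂ : ∀ u, co ψ₂ u ≠ 0 → w₂ ≤ u.length)
    (hli : ∀ a b : ℚ, a • comp w₁ ψ₁ + b • comp w₂ ψ₂ = 0 → a = 0 ∧ b = 0) :
    Function.Injective (Phi ψ₁ ψ₂) := by
  refine Pool.Agent.H28R3.DM.Low.low ![ψ₁, ψ₂] ![w₁, w₂] ?_ ?_
  · rw [Fin.forall_fin_two]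
    exact ⟨l₁, l₂⟩
  · exact grt_homog _ _ w₁ w₂ (isGRT_comp h₁ w₁) (isGRT_comp h₂ w₂) (comp_lenHom w₁ ψ₁)
      (comp_lenHom w₂ ψ₂) hli

theorem grt_phi_inj {ψ₁ ψ₂ : A}
    (h₁ : IsGRT ψ₁) (h₂ : IsGRT ψ₂) (hli : ∀ a b : ℚ, a • ψ₁ + b • ψ₂ = 0 → a = 0 ∧ b = 0) :
    Function.Injective (Phi ψ₁ ψ₂) := by
  have n1 : ψ₁ ≠ 0 := by
    intro h
    have := hli 1 0 (by rw [h]; simp)
    exact one_ne_zero this.1
  have n2 : ψ₂ ≠ 0 := by
    intro h
    have := hli 0 1 (by rw [h]; simp)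
    exact one_ne_zero this.2
  obtain ⟨w₁, l₁, c₁⟩ := exists_low n1
  obtain ⟨w₂, l₂, c₂⟩ := exists_low n2
  by_cases hA : ∀ c : ℚ, comp w₂ ψ₂ ≠ c • comp w₁ ψ₁
  · refine grt_low_indep h₁ h₂ l₁ l₂ ?_
    intro a b hab
    have hb : b = 0 := by
      by_contra hb
      apply hA (-(b⁻¹ * a))
      have h3 : b • comp w₂ ψ₂ = - (a • comp w₁ ψ₁) := eq_neg_of_add_eq_zero_right hab
      have h4 : comp w₂ ψ₂ = b⁻¹ • (b • comp w₂ ψ₂) := by
        rw [smul_smul, inv_mul_cancel₀ hb, one_smul]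
      rw [h4, h3]
      module
    refine ⟨?_, hb⟩
    rw [hb, zero_smul, add_zero] at hab
    exact (smul_eq_zero.mp hab).resolve_right c₁
  · push Not at hA
    obtain ⟨κ, hκ⟩ := hA
    have hκ0 : κ ≠ 0 := by
      rintro rfl
      rw [zero_smul] at hκ
      exact c₂ hκ
    have hw : w₁ = w₂ := by
      obtain ⟨u, hu⟩ := exists_co_ne c₁
      have h1 := comp_lenHom _ _ u hu
      have h2 : co (comp w₂ ψ₂) u ≠ 0 := by
        rw [hκ, co_smul]; exact mul_ne_zero hκ0 hu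
      have h3 := comp_lenHom _ _ u h2
      omega
    subst hw
    apply taskShear_proof ψ₁ ψ₂ κ
    have hne : ψ₂ - κ • ψ₁ ≠ 0 := by
      intro h
      have := hli (-κ) 1 (by rw [← h]; module)
      exact one_ne_zero this.2
    have hd := isGRT_sub h₁ h₂ κ
    obtain ⟨w₃, l₃, c₃⟩ := exists_low hne
    refine grt_low_indep h₁ hd l₁ l₃ ?_
    refine indep_of_ne (comp_lenHom _ _) (comp_lenHom _ _) c₁ c₃ ?_
    rintro rfl
    apply c₃
    rw [map_sub, map_smul, hκ, sub_self]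

/-! ### several generators -/

lemma grt_prim_all {f : A} {ρ : ℕ} (hd : IsGRT f)
    (hρ : 1 ≤ ρ) (hcnt : ∀ u, co f u ≠ 0 → ρ ≤ u.count 1) : ∀ j, Prim (Fp ρ f j) := by
  intro j
  induction j with
  | zero =>
    refine grt_prim0 hd ρ hρ hcnt _ ?_
    intro v
    rw [co_Fp, List.replicate_zero, List.append_nil]
  | succ j ih =>
    have hR : ((j : ℚ) + 1) • Fp ρ f (j + 1) = - dl (Fp ρ f j) := by
      have := congrArg (dp ρ) (Pool.Agent.H777R4.DM.R0.taskR0 f hd.mem (grt_c hd).1 j)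
      rw [map_smul, map_neg, dp_dl] at this
      exact this
    have h1 : Fp ρ f (j + 1) = ((j : ℚ) + 1)⁻¹ • (- dl (Fp ρ f j)) := by
      rw [← hR, smul_smul, inv_mul_cancel₀ (by positivity), one_smul]
    rw [h1]
    exact prim_smul _ (prim_neg (Pool.Agent.H237R3.DM.taskDelta _ ih))

theorem grt_case {n r R : ℕ} {ψ : Fin n → A} {wt : Fin n → ℕ} {W : Finset ℕ}
    (hr : 1 ≤ r) (hR : R + 1 ≤ 2 * r) (hW : ∀ w ∈ W, W.card * R < w)
    (hwt : ∀ i, wt i ∈ W) (hdm : ∀ i, IsGRT (ψ i)) (hhom : ∀ i, LenHom (ψ i) (wt i))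
    (hcnt : ∀ i u, co (ψ i) u ≠ 0 → r ≤ u.count 1)
    (hind : ∀ c : Fin n → ℚ, (∀ u, u.count 1 ≤ R → co (cmb ψ c) u = 0) → c = 0) :
    Function.Injective (PhiN ψ) := by
  have hd : ∀ c w, IsGRT (cmw ψ wt c w) := by
    intro c w
    unfold cmw
    exact isGRT_sum _ _ fun i _ => isGRT_smul (hdm i) _
  refine core2 Pool.Agent.H337R3.Lead1.lead1 Pool.Agent.H861R3.DM.LeadN.leadN_ok
    Pool.Agent.H630R3.DM.FreeP.taskFreeP Pool.Agent.H777R4.DM.R0.taskR0 taskVan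
    Pool.Agent.H553R3.taskAdMu Pool.Agent.H826R3.DM.taskShearN hr hR hwt hhom (fun i => (hdm i).mem)
    (fun i => (grt_c (hdm i)).1) hcnt hind ?_ ?_
  · intro c w hw ρ hρr hρR hdep hu
    obtain ⟨k, hk, hkne⟩ := Pool.Agent.H30R3.DSNKB.taskKB Pool.Agent.H777R4.DM.R0.taskR0 taskTwoB _ ρ w
      (hd c w).mem (grt_c (hd c w)).1 (cmw_hom hhom c w) (by omega) hdep hu
      (grt_prim_all (hd c w) (by omega) hdep 0)
    refine ⟨k, ?_, hkne⟩
    have h1 := hW w hw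
    have h2 : W.card * ρ ≤ W.card * R := Nat.mul_le_mul_left _ hρR
    have h3 : W.card * ρ < (k + 1) * ρ := by
      have h4 : (k + 1) * ρ = ρ * k + ρ := by ring
      omega
    have := Nat.lt_of_mul_lt_mul_right h3
    omega
  · intro c w hw ρ hρr hρR hdep
    exact grt_prim_all (hd c w) (by omega) hdep

end Pool.Agent.R921.GRT
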