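import Pool.Agent.R921.GRT.Wd

/-! MP_446dfa_ag: the shuffle relation for the lowest depth part of an element of `𝔤𝔯𝔱₁`. -/

set_option autoImplicit false

namespace Pool.Agent.R921.GRT

open State Pool.Agent.H777R4.DM

attribute [local instance 100] LieRing.ofAssociativeRing

lemma shS_add (a b : List ℕ) : ∀ g h : List ℕ → ℚ,
    shS (fun w => g w + h w) a b = shS g a b + shS h a b := by
  refine shS_ind (p := fun a b => ∀ g h : List ℕ → ℚ,
    shS (fun w => g w + h w) a b = shS g a b + shS h a b) ?_ ?_ ?_ a b
  · intro b g h; simp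
  · intro a g h; simp
  · intro a as b bs i1 i2 g h
    rw [shS_cons, shS_cons, shS_cons, i1, i2]; ring

lemma shS_smul (c : ℚ) (a b : List ℕ) : ∀ g : List ℕ → ℚ,
    shS (fun w => c * g w) a b = c * shS g a b := by
  refine shS_ind (p := fun a b => ∀ g : List ℕ → ℚ,
    shS (fun w => c * g w) a b = c * shS g a b) ?_ ?_ ?_ a b
  · intro b g; simp
  · intro a g; simp
  · intro a as b bs i1 i2 g
    rw [shS_cons, shS_cons, i1, i2]; ring

lemma Ps_add (t : Bool) (φ χ : Fn) (a b : List ℕ) : ∀ p : List ℕ,
    Ps t (φ + χ) p a b = Ps t φ p a b + Ps t χ p a b := by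
  cases a with
  | nil => intro p; rw [Ps_nil, Ps_nil, Ps_nil]; rfl
  | cons a as =>
    induction b with
    | nil => intro p; rw [Ps_nil', Ps_nil', Ps_nil']; rfl
    | cons b bs ih =>
      intro p
      rw [Ps_cons, Ps_cons, Ps_cons, ih]
      simp only [Pi.add_apply]
      rw [shS_add]
      ring

lemma Ps_smul (t : Bool) (c : ℚ) (φ : Fn) (a b : List ℕ) : ∀ p : List ℕ,
    Ps t (c • φ) p a b = c * Ps t φ p a b := by
  cases a with
  | nil => intro p; rw [Ps_nil, Ps_nil]; rfl
  | cons a as =>
    induction b with
    | nil => intro p; rw [Ps_nil', Ps_nil']; rfl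
    | cons b bs ih =>
      intro p
      rw [Ps_cons, Ps_cons, ih]
      simp only [Pi.smul_apply, smul_eq_mul]
      rw [shS_smul]
      ring

def tauL (a b : List ℕ) : Fn →ₗ[ℚ] ℚ where
  toFun φ := tau φ a b
  map_add' φ χ := by
    cases a with
    | nil => rfl
    | cons a as =>
      cases b with
      | nil => rfl
      | cons b bs => rw [tau, tau, tau, Ps_add, Ps_add]; ring
  map_smul' c φ := by
    cases a with
    | nil => rfl
    | cons a as =>
      cases b with
      | nil => rfl
      | cons b bs => rw [tau, tau, Ps_smul, Ps_smul, RingHom.id_apply, smul_eq_mul]; ring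

lemma tau_add (φ χ : Fn) (a b : List ℕ) : tau (φ + χ) a b = tau φ a b + tau χ a b :=
  map_add (tauL a b) φ χ
lemma tau_neg (φ : Fn) (a b : List ℕ) : tau (-φ) a b = - tau φ a b :=
  map_neg (tauL a b) φ

lemma Ps_g (t : Bool) (φ : Fn) (g : List ℕ → ℚ) (N : ℕ)
    (h : ∀ s, ok t s → dep s = N → φ s = g (lst s)) (a b : List ℕ) : ∀ p : List ℕ,
    p.length + a.length + b.length = N → Ps t φ p a b = shS (fun w => g (p ++ w)) a b := by
  cases a with
  | nil =>
    intro p hp
    rw [Ps_nil, shS_nil, h _ (ok_mk _ _ _ (by simp)) (by simpa using hp), lst_mk]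
  | cons a as =>
    induction b with
    | nil =>
      intro p hp
      rw [Ps_nil', shS_nil', h _ (ok_mk _ _ _ (by simp)) (by simpa using hp), lst_mk]
    | cons b bs ih =>
      intro p hp
      rw [Ps_cons, shS_cons, ih (p ++ [b]) (by simp only [List.length_append, List.length_cons, List.length_nil] at hp ⊢; omega)]
      simp only [List.append_assoc, List.singleton_append]
      congr 1
      apply shS_congr_len
      intro w hw
      rw [h _ (ok_mk _ _ _ (by simp)) (by
        simp only [List.length_cons] at hw hp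
        simp only [dep_mk, List.length_append, List.length_cons]
        omega), lst_mk]

lemma tau_g (φ : Fn) (g : List ℕ → ℚ) (a b : List ℕ)
    (h : ∀ t s, ok t s → dep s = a.length + b.length → φ s = g (lst s)) :
    tau φ a b = shS g a b := by
  cases a with
  | nil =>
    rw [tau, shS_nil, h false _ (ok_mk _ _ _ le_rfl) (by simp), lst_mk]
  | cons a as =>
    cases b with
    | nil =>
      rw [tau, shS_nil', h true _ (ok_mk _ _ _ (by simp)) (by simp), lst_mk]
    | cons b bs =>
      rw [tau, Ps_g false φ g _ (h false) (a :: as) bs [b] (by simp; omega),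
        Ps_g true φ g _ (h true) (b :: bs) as [a] (by simp; omega), shS_cons, shS_comm (b :: bs) as]
      simp only [List.singleton_append]
      ring

lemma tau_dep (φ : Fn) (a b : List ℕ) (h : ∀ s, dep s = a.length + b.length → φ s = 0) :
    tau φ a b = 0 := by
  rw [tau_g φ (fun _ => 0) a b (fun t s _ hs => h s hs), shS_zero]

/-! ### products of states -/

lemma M_low (b : Bool) (φ : Fn) (s : State) (h : ∀ s', dep s' ≤ dep s → φ s' = 0) :
    Ml b φ s = 0 := M_dep b φ s h

lemma R_low (b : Bool) (φ : Fn) (s : State) (h : ∀ s', dep s' + 1 = dep s → φ s' = 0) :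
    Rl b φ s = 0 := R_dep b φ s h

lemma Z_low (φ : Fn) (s : State) (h : ∀ s', dep s' + 1 = dep s → φ s' = 0) :
    Zl φ s = 0 := Z_dep φ s h

/-- the operators `B + X`, `-(Z + Y)` on the product states -/
theorem tau_BY : ∀ (u : List (Fin 2)) (a : ℕ) (as b : List ℕ),
    as.length + 1 + b.length ≤ u.count 1 → tau (W (Bo + Xo) (-Zl + -Yo) u) (a :: as) b = 0 := by
  have L0 : ∀ (φ : Fn) (s : State), (∀ s', dep s' ≤ dep s → φ s' = 0) → (Bo + Xo) φ s = 0 := by
    intro φ s h
    rw [LinearMap.add_apply, Pi.add_apply, M_low _ _ _ h, R_low _ _ _ (fun s' hs' => h s' (by omega)),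
      add_zero]
  have L1 : ∀ (φ : Fn) (s : State), (∀ s', dep s' + 1 = dep s → φ s' = 0) →
      (-Zl + -Yo) φ s = 0 := by
    intro φ s h
    rw [LinearMap.add_apply, Pi.add_apply, LinearMap.neg_apply, LinearMap.neg_apply, Pi.neg_apply,
      Pi.neg_apply, Z_low _ _ h, R_low _ _ _ h, neg_zero, add_zero]
  intro u
  induction u with
  | nil => intro a as b h; simp at h
  | cons i u ih =>
    intro a as b h
    by_cases hi : i = 1
    · subst hi
      rw [List.count_cons_self] at h
      rw [W_one, LinearMap.add_apply, tau_add, LinearMap.neg_apply, LinearMap.neg_apply, tau_neg,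
        tau_neg, Zl_apply, tauZ, Rl_apply]
      match b with
      | [] => rw [tauY_nil, neg_zero, add_zero]
      | 0 :: b =>
        rw [tauY, ih a as b (by simp only [List.length_cons] at h; omega), neg_zero, add_zero]
      | (n + 1) :: b => rw [tauY_succ, neg_zero, add_zero]
    · have hi0 : i = 0 := by omega
      subst hi0
      rw [List.count_cons_of_ne (by decide)] at h
      have hlow : ∀ s, dep s < u.count 1 → W (Bo + Xo) (-Zl + -Yo) u s = 0 := W_low L0 L1 u
      rw [W_zero, LinearMap.add_apply, tau_add]
      rw [tau_dep (Xo _) (a :: as) b (fun s hs => R_low _ _ _ (fun s' hs' => hlow s' (by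
        simp only [List.length_cons] at hs; omega))), add_zero, Ml_apply]
      match b with
      | [] => rw [tauB_nil]
      | 0 :: b =>
        rw [tauB_zero]
        intro s hs
        apply hlow
        simp only [List.length_cons] at h
        omega
      | (n + 1) :: b => rw [tauB_succ, ih a as (n :: b) (by simpa using h)]

/-- the operators `A`, `-X` on the product states -/
theorem tau_AX : ∀ (u : List (Fin 2)) (a : List ℕ) (b : ℕ) (bs : List ℕ),
    a.length + 1 + bs.length ≤ u.count 1 → tau (W Ao (-Xo) u) a (b :: bs) = 0 := by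
  have L0 : ∀ (φ : Fn) (s : State), (∀ s', dep s' ≤ dep s → φ s' = 0) → Ao φ s = 0 :=
    fun φ s h => M_low _ _ _ h
  have L1 : ∀ (φ : Fn) (s : State), (∀ s', dep s' + 1 = dep s → φ s' = 0) → (-Xo) φ s = 0 := by
    intro φ s h
    rw [LinearMap.neg_apply, Pi.neg_apply, R_low _ _ _ h, neg_zero]
  intro u
  induction u with
  | nil => intro a b bs h; simp at h
  | cons i u ih =>
    intro a b bs h
    by_cases hi : i = 1
    · subst hi
      rw [List.count_cons_self] at h
      rw [W_one, LinearMap.neg_apply, tau_neg, Rl_apply]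
      match a with
      | [] => rw [tauX_nil, neg_zero]
      | 0 :: a =>
        rw [tauX, ih a b bs (by simp only [List.length_cons] at h; omega), neg_zero]
      | (n + 1) :: a => rw [tauX_succ, neg_zero]
    · have hi0 : i = 0 := by omega
      subst hi0
      rw [List.count_cons_of_ne (by decide)] at h
      have hlow : ∀ s, dep s < u.count 1 → W Ao (-Xo) u s = 0 := W_low L0 L1 u
      rw [W_zero, Ml_apply]
      match a with
      | [] => rw [tauA_nil]
      | 0 :: a =>
        rw [tauA_zero]
        intro s hs
        apply hlow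
        simp only [List.length_cons] at h
        omega
      | (n + 1) :: a => rw [tauA_succ, ih (n :: a) b bs (by simpa using h)]

end Pool.Agent.R921.GRT
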