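import Pool.Agent.R921.GRT.Main

/-! MP_446dfa_ag: the pentagon implies the shuffle relation for the lowest depth part. -/

set_option autoImplicit false

namespace Pool.Agent.R921.GRT

open State Pool.Agent.H777R4.DM

attribute [local instance 100] LieRing.ofAssociativeRing

/-- value of `ev e0 e1 ψ` on the vacuum at a state, as a linear form in `ψ` -/
noncomputable def valL (e0 e1 : Module.End ℚ Fn) (s : State) : A →ₗ[ℚ] ℚ :=
  (LinearMap.proj s : Fn →ₗ[ℚ] ℚ) ∘ₗ (LinearMap.applyₗ (vac : Fn)) ∘ₗ (ev e0 e1).toLinearMap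

lemma valL_apply (e0 e1 : Module.End ℚ Fn) (s : State) (ψ : A) :
    valL e0 e1 s ψ = ev e0 e1 ψ vac s := rfl

noncomputable def coL (v : List (Fin 2)) : A →ₗ[ℚ] ℚ where
  toFun P := co P v
  map_add' P Q := co_add P Q v
  map_smul' c P := co_smul c P v

lemma wordX_count' (v : List ℕ) : (wordX v).count 1 = v.length := wordX_count v

lemma co_count_ne {u v : List (Fin 2)} (h : u.count 1 ≠ v.count 1) : co (wd u) v = 0 := by
  rw [co_wd, if_neg]
  rintro rfl
  exact h rfl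

lemma val_word {e0 e1 : Module.End ℚ Fn} (b : Bool)
    (h0 : ∀ (φ : Fn) (s : State), (∀ s', dep s' ≤ dep s → φ s' = 0) → e0 φ s = 0)
    (h1 : ∀ (φ : Fn) (s : State), (∀ s', dep s' + 1 = dep s → φ s' = 0) → e1 φ s = 0)
    (H0 : ∀ (φ : Fn) (s : State), ok b s → (∀ s', dep s' < dep s → φ s' = 0) → e0 φ s = hd φ s)
    (H1 : ∀ (φ : Fn) (s : State), ok b s → e1 φ s = - pp φ s)
    (ψ : A) (r : ℕ) (hr : ∀ u, co ψ u ≠ 0 → r ≤ u.count 1) (s : State) (hs : ok b s)
    (hd : dep s = r) : ev e0 e1 ψ vac s = (-1) ^ r * co ψ (wordX (lst s)) := by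
  have h := lin_supp (valL e0 e1 s) ((-1 : ℚ) ^ r • coL (wordX (lst s))) ψ ?_
  · exact h
  · intro u hu
    rw [valL_apply, ev_W]
    show _ = (-1 : ℚ) ^ r * co (wd u) (wordX (lst s))
    rcases Nat.eq_or_lt_of_le (hr u hu) with h2 | h2
    · rw [W_val b h0 h1 H0 H1 u s hs (by omega), hd]
    · rw [W_low h0 h1 u s (by omega), co_count_ne, mul_zero]
      rw [wordX_count', ← dep_eq]
      omega

lemma val_none {e0 e1 : Module.End ℚ Fn} (p : State → Prop)
    (h0 : ∀ (φ : Fn) (s : State), p s → (∀ s', p s' → s' ≠ G [] → φ s' = 0) → e0 φ s = 0)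
    (h1 : ∀ (φ : Fn) (s : State), p s → (∀ s', p s' → s' ≠ G [] → φ s' = 0) → e1 φ s = 0)
    (ψ : A) (hψ : ∀ u, co ψ u ≠ 0 → u ≠ []) (s : State) (hs : p s) : ev e0 e1 ψ vac s = 0 := by
  have h := lin_supp (valL e0 e1 s) 0 ψ ?_
  · exact h
  · intro u hu
    rw [valL_apply, ev_W]
    exact W_none p h0 h1 u (hψ u hu) s hs

/-- the pentagon relation for the elements `t i j` -/
def Pentagon (ψ : A) {B : Type} [Ring B] [Algebra ℚ B] (t : Fin 4 → Fin 4 → B) : Prop :=
  ev (t 0 1) (t 1 2 + t 1 3) ψ + ev (t 0 2 + t 1 2) (t 2 3) ψ =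
    ev (t 1 2) (t 2 3) ψ + ev (t 0 1 + t 0 2) (t 1 3 + t 2 3) ψ + ev (t 0 1) (t 1 2) ψ

theorem shuffle_rel (ψ : A) (r : ℕ) (hr : ∀ u, co ψ u ≠ 0 → r ≤ u.count 1)
    (hlen : ∀ u, co ψ u ≠ 0 → u.length ≠ r) (pent : Pentagon ψ (mat Ao Bo Xo Yo Zl))
    (a b : ℕ) (as bs : List ℕ) (h : (a :: as).length + (b :: bs).length = r) :
    shS (fun w => co ψ (wordX w)) (a :: as) (b :: bs) = 0 := by
  have hne : ∀ u, co ψ u ≠ 0 → u ≠ [] := by
    rintro u hu rfl
    have := hr _ hu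
    simp only [List.length_cons, List.count_nil] at h this
    omega
  have pent' : ev Ao (-Xo + -Zl) ψ + ev (Bo - Ao) (-Yo) ψ =
      ev (-Xo) (-Yo) ψ + ev (Bo + Xo) (-Zl + -Yo) ψ + ev Ao (-Xo) ψ := by
    have h1 : Pentagon ψ (mat Ao Bo Xo Yo Zl) ↔ ev Ao (-Xo + -Zl) ψ + ev ((Bo - Ao + Xo) + -Xo) (-Yo) ψ =
      ev (-Xo) (-Yo) ψ + ev (Ao + (Bo - Ao + Xo)) (-Zl + -Yo) ψ + ev Ao (-Xo) ψ := Iff.rfl
    have h2 := h1.mp pent
    rwa [show (Bo - Ao + Xo) + -Xo = Bo - Ao by abel, show Ao + (Bo - Ao + Xo) = Bo + Xo by abel] at h2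
  -- the element `Ξ`
  obtain ⟨Ξ, hΞ⟩ : ∃ Ξ : Fn, Ξ = ev (Bo + Xo) (-Zl + -Yo) ψ vac + ev Ao (-Xo) ψ vac := ⟨_, rfl⟩
  have hΞ' : Ξ = ev Ao (-Xo + -Zl) ψ vac + ev (Bo - Ao) (-Yo) ψ vac - ev (-Xo) (-Yo) ψ vac := by
    have h3 := congrArg (fun e : Module.End ℚ Fn => e vac) pent'
    simp only [LinearMap.add_apply] at h3
    rw [hΞ, h3]
    abel
  have L0 : ∀ (φ : Fn) (s : State), (∀ s', dep s' ≤ dep s → φ s' = 0) → (Bo + Xo) φ s = 0 := by
    intro φ s h
    rw [LinearMap.add_apply, Pi.add_apply, M_low _ _ _ h, R_low _ _ _ (fun s' hs' => h s' (by omega)),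
      add_zero]
  have L1 : ∀ (φ : Fn) (s : State), (∀ s', dep s' + 1 = dep s → φ s' = 0) →
      (-Zl + -Yo) φ s = 0 := by
    intro φ s h
    rw [LinearMap.add_apply, Pi.add_apply, LinearMap.neg_apply, LinearMap.neg_apply, Pi.neg_apply,
      Pi.neg_apply, Z_low _ _ h, R_low _ _ _ h, neg_zero, add_zero]
  have valI : ∀ s, ok false s → dep s = r → Ξ s = (-1) ^ r * co ψ (wordX (lst s)) := by
    intro s hs hd
    rw [hΞ, Pi.add_apply, val_word false L0 L1 ?_ ?_ ψ r hr s hs hd,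
      val_none (tag false) ?_ ?_ ψ hne s (ok_tag hs), add_zero]
    · intro φ s hs hφ
      exact M_none' false false φ hs hφ
    · intro φ s hs hφ
      rw [LinearMap.neg_apply, Pi.neg_apply, Rl_apply, R_none false φ hs hφ, neg_zero]
    · intro φ s hs hφ
      rw [LinearMap.add_apply, Pi.add_apply, R_low _ _ _ (fun s' hs' => hφ s' (by omega)), add_zero,
        Ml_apply, M_hd true φ (ok_tag hs)]
    · intro φ s hs
      rw [LinearMap.add_apply, Pi.add_apply, LinearMap.neg_apply, LinearMap.neg_apply, Pi.neg_apply,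
        Pi.neg_apply, ← R_pp true φ (ok_tag hs), Zl_apply, Rl_apply]
      ring
  have valJ : ∀ s, ok true s → dep s = r → Ξ s = (-1) ^ r * co ψ (wordX (lst s)) := by
    intro s hs hd
    have h3 : ev (-Xo) (-Yo) ψ vac s = 0 := by
      have h4 := lin_supp (valL (-Xo) (-Yo) s) 0 ψ ?_
      · exact h4
      · intro u hu
        rw [valL_apply, ev_W]
        refine W_len ?_ ?_ u s ?_
        · intro φ s h
          rw [LinearMap.neg_apply, Pi.neg_apply, R_low _ _ _ h, neg_zero]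
        · intro φ s h
          rw [LinearMap.neg_apply, Pi.neg_apply, R_low _ _ _ h, neg_zero]
        · rw [hd]
          exact (hlen u hu).symm
    rw [hΞ', Pi.sub_apply, Pi.add_apply, h3, sub_zero, val_word true ?_ ?_ ?_ ?_ ψ r hr s hs hd,
      val_none (tag true) ?_ ?_ ψ hne s (ok_tag hs), add_zero]
    · intro φ s hs hφ
      rw [LinearMap.sub_apply, Pi.sub_apply, Ml_apply, Ml_apply, M_none' true true φ hs hφ,
        M_none' true false φ hs hφ, sub_zero]
    · intro φ s hs hφ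
      rw [LinearMap.neg_apply, Pi.neg_apply, Rl_apply, R_none true φ hs hφ, neg_zero]
    · exact fun φ s h => M_low _ _ _ h
    · intro φ s h
      rw [LinearMap.add_apply, Pi.add_apply, LinearMap.neg_apply, LinearMap.neg_apply, Pi.neg_apply,
        Pi.neg_apply, Z_low _ _ h, R_low _ _ _ h, neg_zero, add_zero]
    · intro φ s hs _
      rw [Ml_apply, M_hd false φ (ok_tag hs)]
    · intro φ s hs
      rw [LinearMap.add_apply, Pi.add_apply, LinearMap.neg_apply, LinearMap.neg_apply, Pi.neg_apply,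
        Pi.neg_apply, ← R_pp false φ (ok_tag hs), Zl_apply, Rl_apply]
      ring
  -- the product
  have htau : tau Ξ (a :: as) (b :: bs) = 0 := by
    rw [hΞ, tau_add]
    have k1 : tau (ev (Bo + Xo) (-Zl + -Yo) ψ vac) (a :: as) (b :: bs) = 0 := by
      have h4 := lin_supp (tauL (a :: as) (b :: bs) ∘ₗ (LinearMap.applyₗ (vac : Fn)) ∘ₗ
        (ev (Bo + Xo) (-Zl + -Yo)).toLinearMap) 0 ψ ?_
      · exact h4
      · intro u hu
        show tau (ev (Bo + Xo) (-Zl + -Yo) (wd u) vac) (a :: as) (b :: bs) = 0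
        rw [ev_W]
        apply tau_BY
        have := hr u hu
        simp only [List.length_cons] at h ⊢
        omega
    have k2 : tau (ev Ao (-Xo) ψ vac) (a :: as) (b :: bs) = 0 := by
      have h4 := lin_supp (tauL (a :: as) (b :: bs) ∘ₗ (LinearMap.applyₗ (vac : Fn)) ∘ₗ
        (ev Ao (-Xo)).toLinearMap) 0 ψ ?_
      · exact h4
      · intro u hu
        show tau (ev Ao (-Xo) (wd u) vac) (a :: as) (b :: bs) = 0
        rw [ev_W]
        apply tau_AX
        have := hr u hu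
        simp only [List.length_cons] at h ⊢
        omega
    rw [k1, k2, add_zero]
  rw [tau_g Ξ (fun w => (-1) ^ r * co ψ (wordX w)) _ _ ?_, shS_smul] at htau
  · exact (mul_eq_zero.mp htau).resolve_left (pow_ne_zero _ (by norm_num))
  · intro t s hs hd
    cases t
    · exact valI s hs (by rw [hd, h])
    · exact valJ s hs (by rw [hd, h])

end Pool.Agent.R921.GRT
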