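import Pool.Agent.R921.GRT.Pent
import Pool.Agent.H466R3.DM_Prim0

/-! MP_446dfa_ag: the lowest depth part is primitive for the shuffle coproduct. -/

set_option autoImplicit false

namespace Pool.Agent.R921.GRT

open Pool.Agent.H777R4.DM

attribute [local instance 100] LieRing.ofAssociativeRing

/-- coefficient of a pair of words -/
noncomputable def co2 (R : AYY) (p q : List ℕ) : ℚ := R.coeff (FreeMonoid.ofList p, FreeMonoid.ofList q)

lemma co2_add (R S : AYY) (p q : List ℕ) : co2 (R + S) p q = co2 R p q + co2 S p q := by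
  simp [co2]
lemma co2_smul (c : ℚ) (R : AYY) (p q : List ℕ) : co2 (c • R) p q = c * co2 R p q := by
  simp [co2]
lemma co2_zero (p q : List ℕ) : co2 0 p q = 0 := by simp [co2]

lemma co2_of (m1 m2 : FreeMonoid ℕ) (p q : List ℕ) :
    co2 (MonoidAlgebra.of ℚ (FreeMonoid ℕ × FreeMonoid ℕ) (m1, m2)) p q =
      if FreeMonoid.toList m1 = p ∧ FreeMonoid.toList m2 = q then 1 else 0 := by
  classical
  unfold co2
  rw [MonoidAlgebra.of_apply, MonoidAlgebra.coeff_single, Finsupp.single_apply]
  have e : ((m1, m2) : FreeMonoid ℕ × FreeMonoid ℕ) = (FreeMonoid.ofList p, FreeMonoid.ofList q) ↔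
      FreeMonoid.toList m1 = p ∧ FreeMonoid.toList m2 = q := by
    rw [Prod.mk.injEq]
    constructor
    · rintro ⟨rfl, rfl⟩
      exact ⟨rfl, rfl⟩
    · rintro ⟨rfl, rfl⟩
      exact ⟨rfl, rfl⟩
  by_cases h : FreeMonoid.toList m1 = p ∧ FreeMonoid.toList m2 = q
  · rw [if_pos h, if_pos (e.mpr h)]
  · rw [if_neg h, if_neg (fun h' => h (e.mp h'))]

lemma inl_wd (t : List ℕ) : inl (wd t) =
    MonoidAlgebra.of ℚ (FreeMonoid ℕ × FreeMonoid ℕ) (FreeMonoid.ofList t, 1) := by
  unfold inl wd
  simp

lemma inr_wd (t : List ℕ) : inr (wd t) =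
    MonoidAlgebra.of ℚ (FreeMonoid ℕ × FreeMonoid ℕ) (1, FreeMonoid.ofList t) := by
  unfold inr wd
  simp

lemma ofList_eq_one (q : List ℕ) : (1 : FreeMonoid ℕ) = FreeMonoid.ofList q ↔ q = [] := by
  rw [← FreeMonoid.ofList_nil]
  constructor
  · intro h
    exact (FreeMonoid.ofList.injective h).symm
  · rintro rfl; rfl

lemma ofList_inj (p q : List ℕ) : FreeMonoid.ofList p = FreeMonoid.ofList q ↔ p = q :=
  ⟨fun h => FreeMonoid.ofList.injective h, fun h => by rw [h]⟩

lemma co2_inl (F : AY) (p q : List ℕ) : co2 (inl F) p q = if q = [] then co F p else 0 := by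
  induction F using al_induction with
  | h1 t =>
    rw [inl_wd, co2_of, co_wd]
    by_cases h1 : q = [] <;> by_cases h2 : t = p <;> simp [h1, h2, eq_comm]
  | h2 P Q hP hQ =>
    rw [map_add, co2_add, hP, hQ, co_add]
    split_ifs <;> ring
  | h3 c P hP =>
    rw [map_smul, co2_smul, hP, co_smul]
    split_ifs <;> ring

lemma co2_inr (F : AY) (p q : List ℕ) : co2 (inr F) p q = if p = [] then co F q else 0 := by
  induction F using al_induction with
  | h1 t =>
    rw [inr_wd, co2_of, co_wd]
    by_cases h1 : p = [] <;> by_cases h2 : t = q <;> simp [h1, h2, eq_comm]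
  | h2 P Q hP hQ =>
    rw [map_add, co2_add, hP, hQ, co_add]
    split_ifs <;> ring
  | h3 c P hP =>
    rw [map_smul, co2_smul, hP, co_smul]
    split_ifs <;> ring

/-- the left coefficient -/
def lc (k : ℕ) (f : List ℕ → ℚ) : List ℕ → ℚ
  | [] => 0
  | a :: p => if a = k then f p else 0

lemma co2_inl_mul (k : ℕ) (R : AYY) (p q : List ℕ) :
    co2 (inl (wd [k]) * R) p q = lc k (fun p' => co2 R p' q) p := by
  induction R using MonoidAlgebra.induction_on with
  | of m =>
    obtain ⟨m1, m2⟩ := m
    rw [inl_wd, ← map_mul, Prod.mk_mul_mk, one_mul, co2_of]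
    cases p with
    | nil => simp [lc]
    | cons a p =>
      simp only [lc, co2_of, FreeMonoid.toList_mul, FreeMonoid.toList_ofList, List.singleton_append,
        List.cons.injEq]
      by_cases h1 : a = k
      · simp [h1]
      · simp [h1, Ne.symm h1]
  | add P Q hP hQ =>
    rw [mul_add, co2_add, hP, hQ]
    cases p with
    | nil => simp [lc]
    | cons a p => simp only [lc, co2_add]; split_ifs <;> ring
  | smul c P hP =>
    rw [mul_smul_comm, co2_smul, hP]
    cases p with
    | nil => simp [lc]
    | cons a p => simp only [lc, co2_smul]; split_ifs <;> ring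

lemma co2_inr_mul (k : ℕ) (R : AYY) (p q : List ℕ) :
    co2 (inr (wd [k]) * R) p q = lc k (fun q' => co2 R p q') q := by
  induction R using MonoidAlgebra.induction_on with
  | of m =>
    obtain ⟨m1, m2⟩ := m
    rw [inr_wd, ← map_mul, Prod.mk_mul_mk, one_mul, co2_of]
    cases q with
    | nil => simp [lc]
    | cons a q =>
      simp only [lc, co2_of, FreeMonoid.toList_mul, FreeMonoid.toList_ofList, List.singleton_append,
        List.cons.injEq]
      by_cases h1 : a = k
      · simp [h1]
      · simp [h1, Ne.symm h1]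
  | add P Q hP hQ =>
    rw [mul_add, co2_add, hP, hQ]
    cases q with
    | nil => simp [lc]
    | cons a p => simp only [lc, co2_add]; split_ifs <;> ring
  | smul c P hP =>
    rw [mul_smul_comm, co2_smul, hP]
    cases q with
    | nil => simp [lc]
    | cons a p => simp only [lc, co2_smul]; split_ifs <;> ring

lemma co_cons_N (k a : ℕ) (w v : List ℕ) :
    co (wd (k :: w)) (a :: v) = if a = k then co (wd w) v else 0 := by
  rw [co_wd, co_wd]
  by_cases h1 : a = k <;> by_cases h2 : w = v <;> simp [h1, h2]
  intro h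
  exact absurd h.symm h1

lemma shS_iteN (a b : List ℕ) (k c : ℕ) (f : List ℕ → ℚ) :
    shS (fun w => if c = k then f w else 0) a b = if c = k then shS f a b else 0 := by
  by_cases h : c = k
  · simp [h]
  · simp only [h, if_false]; exact shS_zero a b

theorem co2_sh_wd (w : List ℕ) : ∀ p q : List ℕ, co2 (shΔ (wd w)) p q = shS (co (wd w)) p q := by
  induction w with
  | nil =>
    intro p q
    rw [H466R3.DMPrim0.wd_nil, map_one, ← map_one (MonoidAlgebra.of ℚ (FreeMonoid ℕ × FreeMonoid ℕ)),
      show (1 : FreeMonoid ℕ × FreeMonoid ℕ) = (1, 1) from rfl, co2_of, ← H466R3.DMPrim0.wd_nil]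
    cases p with
    | nil =>
      rw [shS_nil, co_wd]
      cases q with
      | nil => simp
      | cons b bs => simp
    | cons a as =>
      rw [if_neg (by simp)]
      cases q with
      | nil => rw [shS_nil', co_wd, if_neg (by simp)]
      | cons b bs =>
        rw [shS_cons]
        have e : ∀ c : ℕ, (fun w => co (wd ([] : List ℕ)) (c :: w)) = fun _ => 0 := by
          intro c; funext w; rw [co_wd, if_neg (by simp)]
        rw [e, e, shS_zero, shS_zero, add_zero]
  | cons k w ih =>
    intro p q
    rw [H466R3.DMPrim0.wd_cons, map_mul, H466R3.DMPrim0.sh_one, add_mul, co2_add, co2_inl_mul,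
      co2_inr_mul, ← H466R3.DMPrim0.wd_cons]
    cases p with
    | nil =>
      rw [lc, zero_add, shS_nil]
      cases q with
      | nil => rw [lc, co_wd, if_neg (by simp)]
      | cons b bs =>
        rw [lc, ih, shS_nil, co_cons_N]
    | cons a as =>
      cases q with
      | nil =>
        have e : shS (co (wd w)) as [] = co (wd w) as := by cases as <;> simp
        rw [lc, lc, add_zero, ih, e, shS_nil', co_cons_N]
      | cons b bs =>
        rw [lc, lc, ih, ih, shS_cons]
        have e : ∀ c : ℕ, (fun v => co (wd (k :: w)) (c :: v)) =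
            fun v => if c = k then co (wd w) v else 0 := by
          intro c; funext v; exact co_cons_N k c w v
        rw [e, e, shS_iteN, shS_iteN]

theorem co2_sh (F : AY) (p q : List ℕ) : co2 (shΔ F) p q = shS (co F) p q := by
  induction F using al_induction with
  | h1 w => exact co2_sh_wd w p q
  | h2 P Q hP hQ =>
    rw [map_add, co2_add, hP, hQ, ← shS_add]
    exact congrArg (fun f => shS f p q) (funext fun w => (co_add P Q w).symm)
  | h3 c P hP =>
    rw [map_smul, co2_smul, hP, ← shS_smul]
    exact congrArg (fun f => shS f p q) (funext fun w => (co_smul c P w).symm)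

theorem prim_of_shuffle (F : AY) (h0 : co F [] = 0)
    (h : ∀ (a : ℕ) (as : List ℕ) (b : ℕ) (bs : List ℕ), shS (co F) (a :: as) (b :: bs) = 0) :
    Prim F := by
  unfold Prim
  apply MonoidAlgebra.ext
  ext m
  obtain ⟨p, q⟩ := m
  have key : ∀ p q : List ℕ, co2 (shΔ F) p q = co2 (inl F + inr F) p q := by
    intro p q
    rw [co2_sh, co2_add, co2_inl, co2_inr]
    cases p with
    | nil =>
      rw [shS_nil, if_pos rfl]
      split_ifs <;> simp [h0]
    | cons a as =>
      cases q with
      | nil => rw [shS_nil', if_pos rfl, if_neg (by simp), add_zero]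
      | cons b bs => rw [h, if_neg (by simp), if_neg (by simp), add_zero]
  exact key (FreeMonoid.toList p) (FreeMonoid.toList q)

theorem prim_of_pentagon (ψ : A) (r : ℕ) (hr1 : 1 ≤ r) (hr : ∀ u, co ψ u ≠ 0 → r ≤ u.count 1)
    (hlen : ∀ u, co ψ u ≠ 0 → u.length ≠ r) (pent : Pentagon ψ (mat Ao Bo Xo Yo Zl)) (F : AY)
    (hF : ∀ v, co F v = if v.length = r then co ψ (wordX v) else 0) : Prim F := by
  apply prim_of_shuffle
  · rw [hF, if_neg]
    simp only [List.length_nil]
    omega
  · intro a as b bs
    by_cases h : (a :: as).length + (b :: bs).length = r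
    · rw [shS_congr_len (a :: as) (b :: bs) (co F) (fun w => co ψ (wordX w))]
      · exact shuffle_rel ψ r hr hlen pent a b as bs h
      · intro w hw
        rw [hF, if_pos (by rw [hw, h])]
    · rw [shS_congr_len (a :: as) (b :: bs) (co F) (fun _ => 0)]
      · exact shS_zero _ _
      · intro w hw
        rw [hF, if_neg (by rw [hw]; exact h)]

end Pool.Agent.R921.GRT
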