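import Pool.Agent.R921.GRT.Braid

/-! MP_446dfa_ag: sums over shuffles. -/

set_option autoImplicit false

namespace Pool.Agent.R921.GRT

open State

/-- sum of `g` over the shuffles of two lists -/
def shS : (List ℕ → ℚ) → List ℕ → List ℕ → ℚ
  | g, [], b => g b
  | g, a :: as, [] => g (a :: as)
  | g, a :: as, b :: bs => shS (fun w => g (a :: w)) as (b :: bs) + shS (fun w => g (b :: w)) (a :: as) bs
termination_by _ a b => a.length + b.length

@[simp] lemma shS_nil (g : List ℕ → ℚ) (b : List ℕ) : shS g [] b = g b := by rw [shS]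
@[simp] lemma shS_nil' (g : List ℕ → ℚ) (a : List ℕ) : shS g a [] = g a := by
  cases a <;> rw [shS]
lemma shS_cons (g : List ℕ → ℚ) (a b : ℕ) (as bs : List ℕ) :
    shS g (a :: as) (b :: bs) =
      shS (fun w => g (a :: w)) as (b :: bs) + shS (fun w => g (b :: w)) (a :: as) bs := by
  rw [shS]

lemma shS_ind {p : List ℕ → List ℕ → Prop} (h1 : ∀ b, p [] b) (h2 : ∀ a, p a [])
    (h3 : ∀ a as b bs, p as (b :: bs) → p (a :: as) bs → p (a :: as) (b :: bs)) : ∀ a b, p a b
  | [], b => h1 b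
  | a :: as, [] => h2 _
  | a :: as, b :: bs => h3 a as b bs (shS_ind h1 h2 h3 as (b :: bs)) (shS_ind h1 h2 h3 (a :: as) bs)
termination_by a b => a.length + b.length

lemma shS_sub (a b : List ℕ) : ∀ g h : List ℕ → ℚ,
    shS (fun w => g w - h w) a b = shS g a b - shS h a b := by
  refine shS_ind (p := fun a b => ∀ g h : List ℕ → ℚ,
    shS (fun w => g w - h w) a b = shS g a b - shS h a b) ?_ ?_ ?_ a b
  · intro b g h; simp
  · intro a g h; simp
  · intro a as b bs i1 i2 g h
    rw [shS_cons, shS_cons, shS_cons, i1, i2]; ring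

lemma shS_comm (a b : List ℕ) : ∀ g : List ℕ → ℚ, shS g a b = shS g b a := by
  refine shS_ind (p := fun a b => ∀ g : List ℕ → ℚ, shS g a b = shS g b a) ?_ ?_ ?_ a b
  · intro b g; simp
  · intro a g; simp
  · intro a as b bs i1 i2 g
    rw [shS_cons, shS_cons, i1, i2]; ring

lemma shS_congr_len (a b : List ℕ) : ∀ g h : List ℕ → ℚ,
    (∀ w, w.length = a.length + b.length → g w = h w) → shS g a b = shS h a b := by
  refine shS_ind (p := fun a b => ∀ g h : List ℕ → ℚ,
    (∀ w, w.length = a.length + b.length → g w = h w) → shS g a b = shS h a b) ?_ ?_ ?_ a b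
  · intro b g h H; simpa using H b (by simp)
  · intro a g h H; simpa using H a (by simp)
  · intro a as b bs i1 i2 g h H
    rw [shS_cons, shS_cons, i1 _ (fun w => h (a :: w)), i2 _ (fun w => h (b :: w))]
    · intro w hw
      apply H
      simp only [List.length_cons] at hw ⊢
      omega
    · intro w hw
      apply H
      simp only [List.length_cons] at hw ⊢
      omega

lemma shS_zero (a b : List ℕ) : shS (fun _ => 0) a b = 0 := by
  have := shS_sub a b (fun _ => 0) (fun _ => 0)
  simpa using this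

/-- sum over the shuffles of `a`, `b` after the prefix `p`, with the marker at the first letter
of `a` -/
def Ps (t : Bool) (φ : Fn) : List ℕ → List ℕ → List ℕ → ℚ
  | p, [], b => φ (mk t (p ++ b) (p.length + b.length))
  | p, a :: as, [] => φ (mk t (p ++ a :: as) p.length)
  | p, a :: as, b :: bs => shS (fun w => φ (mk t (p ++ a :: w) p.length)) as (b :: bs) +
      Ps t φ (p ++ [b]) (a :: as) bs

lemma Ps_nil (t : Bool) (φ : Fn) (p b : List ℕ) :
    Ps t φ p [] b = φ (mk t (p ++ b) (p.length + b.length)) := by rw [Ps]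
lemma Ps_nil' (t : Bool) (φ : Fn) (p : List ℕ) (a : ℕ) (as : List ℕ) :
    Ps t φ p (a :: as) [] = φ (mk t (p ++ a :: as) p.length) := by rw [Ps]
lemma Ps_cons (t : Bool) (φ : Fn) (p : List ℕ) (a b : ℕ) (as bs : List ℕ) :
    Ps t φ p (a :: as) (b :: bs) = shS (fun w => φ (mk t (p ++ a :: w) p.length)) as (b :: bs) +
      Ps t φ (p ++ [b]) (a :: as) bs := by rw [Ps]

/-- vanishing of `Ps` sums -/
lemma Ps_zero (t : Bool) (φ : Fn) (a : ℕ) (as : List ℕ) (N : ℕ)
    (H : ∀ p w : List ℕ, p ≠ [] → p.length + w.length = N →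
      φ (mk t (p ++ a :: w) p.length) = 0) :
    ∀ (bs p : List ℕ), p ≠ [] → p.length + as.length + bs.length = N →
      Ps t φ p (a :: as) bs = 0 := by
  intro bs
  induction bs with
  | nil =>
    intro p hp hN
    rw [Ps_nil']
    exact H p as hp (by simpa using hN)
  | cons b bs ih =>
    intro p hp hN
    rw [Ps_cons, ih (p ++ [b]) (by simp) (by simp only [List.length_append, List.length_cons, List.length_nil] at hN ⊢; omega), add_zero]
    rw [← shS_zero as (b :: bs)]
    apply shS_congr_len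
    intro w hw
    apply H p w hp
    simp only [List.length_cons] at hw hN ⊢
    omega

lemma at_marker (p w : List ℕ) (a m : ℕ) (hp : p.length = m + 1) :
    (p ++ a :: w)[m + 1]? = some a := by
  rw [List.getElem?_append_right (by omega), hp]
  simp

lemma erase_marker (p w : List ℕ) (a m : ℕ) (hp : p.length = m + 1) :
    (p ++ a :: w).eraseIdx (m + 1) = p ++ w := by
  rw [List.eraseIdx_append_of_length_le (by omega), hp]
  simp

lemma set_marker (p w : List ℕ) (a b m : ℕ) (hp : p.length = m + 1) :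
    (p ++ a :: w).set (m + 1) b = p ++ b :: w := by
  rw [List.set_append_right _ _ (by omega), hp]
  simp

lemma rm_zero (t : Bool) (φ : Fn) (p w : List ℕ) (m : ℕ) (hp : p.length = m + 1) :
    Rf t φ (mk t (p ++ 0 :: w) (m + 1)) = φ (mk t (p ++ w) (m + 1)) - φ (mk t (p ++ w) m) := by
  rw [mk_succ, Rf_S, if_pos rfl, rm_s1 _ _ _ _ (at_marker p w 0 m hp), erase_marker p w 0 m hp,
    mk_succ]

lemma rm_succ (t : Bool) (φ : Fn) (p w : List ℕ) (n m : ℕ) (hp : p.length = m + 1) :
    Rf t φ (mk t (p ++ (n + 1) :: w) (m + 1)) = 0 := by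
  rw [mk_succ, Rf_S, if_pos rfl, rm_s2 _ _ _ _ _ (at_marker p w (n + 1) m hp)]

lemma md_zero (t : Bool) (φ : Fn) (p w : List ℕ) (m : ℕ) (hp : p.length = m + 1) :
    Mf t φ (mk t (p ++ 0 :: w) (m + 1)) = - φ (mk t (p ++ w) m) := by
  rw [mk_succ, Mf_S, if_pos rfl, md_s1 _ _ _ _ (at_marker p w 0 m hp), erase_marker p w 0 m hp]

lemma md_succ (t : Bool) (φ : Fn) (p w : List ℕ) (n m : ℕ) (hp : p.length = m + 1) :
    Mf t φ (mk t (p ++ (n + 1) :: w) (m + 1)) = φ (mk t (p ++ n :: w) (m + 1)) := by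
  rw [mk_succ, Mf_S, if_pos rfl, md_s2 _ _ _ _ _ (at_marker p w (n + 1) m hp),
    set_marker p w (n + 1) n m hp, mk_succ]

/-- the telescoping sum -/
theorem Ps_Rf (t : Bool) (φ : Fn) (a : List ℕ) : ∀ (b p : List ℕ) (m : ℕ), p.length = m + 1 →
    Ps t (Rf t φ) p (0 :: a) b = Ps t φ p a b - shS (fun w => φ (mk t (p ++ w) m)) a b := by
  intro b
  induction b with
  | nil =>
    intro p m hp
    rw [Ps_nil', hp, rm_zero t φ p a m hp, shS_nil']
    cases a with
    | nil => rw [Ps_nil]; simp [hp]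
    | cons a as => rw [Ps_nil', hp]
  | cons b bs ih =>
    intro p m hp
    rw [Ps_cons, ih (p ++ [b]) (m + 1) (by simp [hp])]
    have h1 : (fun w => Rf t φ (mk t (p ++ 0 :: w) p.length)) =
        fun w => φ (mk t (p ++ w) (m + 1)) - φ (mk t (p ++ w) m) := by
      funext w
      rw [hp, rm_zero t φ p w m hp]
    rw [h1, shS_sub]
    cases a with
    | nil =>
      rw [Ps_nil, Ps_nil, shS_nil, shS_nil, shS_nil]
      simp only [List.append_assoc, List.singleton_append, List.length_append, List.length_cons,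
        List.length_nil]
      rw [show p.length + (0 + 1) + bs.length = p.length + (bs.length + 1) by omega]
      ring
    | cons a as =>
      rw [Ps_cons, shS_cons (fun w => φ (mk t (p ++ w) (m + 1)))]
      simp only [List.append_assoc, List.singleton_append, hp]
      ring

/-- sum over all shuffles of `a`, `b` of the states -/
def tau (φ : Fn) : List ℕ → List ℕ → ℚ
  | [], b => φ (mk false b b.length)
  | a :: as, [] => φ (mk true (a :: as) (as.length + 1))
  | a :: as, b :: bs => Ps false φ [b] (a :: as) bs + Ps true φ [a] (b :: bs) as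

lemma Ps_pop (t : Bool) (φ : Fn) (b : ℕ) (bs : List ℕ) : ∀ (a p : List ℕ),
    Ps t (Rf (!t) φ) (0 :: p) (b :: bs) a = Ps t φ p (b :: bs) a := by
  intro a
  induction a with
  | nil =>
    intro p
    rw [Ps_nil', Ps_nil']
    simp
  | cons a as ih =>
    intro p
    rw [Ps_cons, Ps_cons, List.cons_append, ih (p ++ [a])]
    congr 1
    apply shS_congr_len
    intro w _
    simp

theorem tauX (φ : Fn) (a : List ℕ) (b : ℕ) (bs : List ℕ) :
    tau (Rf false φ) (0 :: a) (b :: bs) = tau φ a (b :: bs) := by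
  rw [tau, Ps_Rf false φ a bs [b] 0 rfl]
  have h1 := Ps_pop true φ b bs a []
  rw [Bool.not_true] at h1
  rw [h1]
  cases a with
  | nil =>
    rw [tau, Ps_nil, Ps_nil', shS_nil]
    simp only [List.singleton_append, mk_zero, List.nil_append,
      List.length_nil, List.length_cons]
    rw [show 1 + bs.length = bs.length + 1 by omega]
    ring
  | cons a as =>
    rw [tau, Ps_cons true φ [], shS_comm (a :: as) bs]
    simp only [List.singleton_append, mk_zero, List.nil_append, List.length_nil]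
    ring

lemma exists_len {p : List ℕ} (hp : p ≠ []) : ∃ m, p.length = m + 1 := by
  cases p with
  | nil => exact absurd rfl hp
  | cons a p => exact ⟨p.length, rfl⟩

/-- (1) -/
lemma Ps_md_succ (t : Bool) (φ : Fn) (n : ℕ) (a : List ℕ) : ∀ (b p : List ℕ), p ≠ [] →
    Ps t (Mf t φ) p ((n + 1) :: a) b = Ps t φ p (n :: a) b := by
  intro b
  induction b with
  | nil =>
    intro p hp
    obtain ⟨m, hm⟩ := exists_len hp
    rw [Ps_nil', Ps_nil', hm, md_succ t φ p a n m hm]
  | cons b bs ih =>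
    intro p hp
    obtain ⟨m, hm⟩ := exists_len hp
    rw [Ps_cons, Ps_cons, ih (p ++ [b]) (by simp)]
    congr 1
    apply shS_congr_len
    intro w _
    rw [hm, md_succ t φ p w n m hm]

/-- (2) -/
lemma Ps_hd_succ (t : Bool) (φ : Fn) (n a : ℕ) (as : List ℕ) : ∀ (b p : List ℕ),
    Ps t (Mf (!t) φ) ((n + 1) :: p) (a :: as) b = Ps t φ (n :: p) (a :: as) b := by
  intro b
  induction b with
  | nil =>
    intro p
    rw [Ps_nil', Ps_nil']
    simp
  | cons b bs ih =>
    intro p
    rw [Ps_cons, Ps_cons, List.cons_append, List.cons_append, ih (p ++ [b])]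
    congr 1
    apply shS_congr_len
    intro w _
    simp

/-- (3) -/
lemma Ps_md_zero (t : Bool) (φ : Fn) (N : ℕ) (hφ : ∀ s, dep s = N → φ s = 0) (a b p : List ℕ)
    (hp : p ≠ []) (hN : p.length + a.length + b.length = N) :
    Ps t (Mf t φ) p (0 :: a) b = 0 := by
  apply Ps_zero t _ 0 a N _ b p hp hN
  intro p w hp hw
  obtain ⟨m, hm⟩ := exists_len hp
  rw [hm, md_zero t φ p w m hm, hφ, neg_zero]
  cases m <;> simp [dep, hw]

lemma Ps_hd_zero (t : Bool) (φ : Fn) (a : ℕ) (as : List ℕ) : ∀ (b p : List ℕ),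
    Ps t (Mf (!t) φ) (0 :: p) (a :: as) b = 0 := by
  intro b
  induction b with
  | nil =>
    intro p
    rw [Ps_nil']
    simp
  | cons b bs ih =>
    intro p
    rw [Ps_cons, List.cons_append, ih (p ++ [b]), add_zero, ← shS_zero as (b :: bs)]
    apply shS_congr_len
    intro w _
    simp

lemma Ps_pop_succ (t : Bool) (φ : Fn) (n a : ℕ) (as : List ℕ) : ∀ (b p : List ℕ),
    Ps t (Rf (!t) φ) ((n + 1) :: p) (a :: as) b = 0 := by
  intro b
  induction b with
  | nil =>
    intro p
    rw [Ps_nil']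
    simp
  | cons b bs ih =>
    intro p
    rw [Ps_cons, List.cons_append, ih (p ++ [b]), add_zero, ← shS_zero as (b :: bs)]
    apply shS_congr_len
    intro w _
    simp

lemma Ps_rm_succ (t : Bool) (φ : Fn) (n : ℕ) (a b p : List ℕ) (hp : p ≠ []) :
    Ps t (Rf t φ) p ((n + 1) :: a) b = 0 := by
  apply Ps_zero t _ (n + 1) a (p.length + a.length + b.length) _ b p hp rfl
  intro p w hp _
  obtain ⟨m, hm⟩ := exists_len hp
  rw [hm, rm_succ t φ p w n m hm]

lemma Ps_Zf (t : Bool) (φ : Fn) (n : ℕ) (a b p : List ℕ) (hp : p ≠ []) :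
    Ps t (Zf φ) p (n :: a) b = 0 := by
  apply Ps_zero t _ n a (p.length + a.length + b.length) _ b p hp rfl
  intro p w hp _
  obtain ⟨m, hm⟩ := exists_len hp
  rw [hm]
  rfl

/-! ### the operators `A`, `X` on `tau` -/

lemma tauX_succ (φ : Fn) (n : ℕ) (a : List ℕ) (b : ℕ) (bs : List ℕ) :
    tau (Rf false φ) ((n + 1) :: a) (b :: bs) = 0 := by
  rw [tau, Ps_rm_succ false φ n a bs [b] (by simp)]
  have h := Ps_pop_succ true φ n b bs a []
  rw [Bool.not_true] at h
  rw [h, add_zero]

lemma tauX_nil (φ : Fn) (b : ℕ) (bs : List ℕ) : tau (Rf false φ) [] (b :: bs) = 0 := by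
  rw [tau, List.length_cons, mk_succ, Rf_S, if_pos rfl, rm_s0]
  simp

lemma tauA_succ (φ : Fn) (n : ℕ) (a : List ℕ) (b : ℕ) (bs : List ℕ) :
    tau (Mf false φ) ((n + 1) :: a) (b :: bs) = tau φ (n :: a) (b :: bs) := by
  rw [tau, tau, Ps_md_succ false φ n a bs [b] (by simp)]
  have h := Ps_hd_succ true φ n b bs a []
  rw [Bool.not_true] at h
  rw [h]

lemma tauA_zero (φ : Fn) (a : List ℕ) (b : ℕ) (bs : List ℕ)
    (hφ : ∀ s, dep s = a.length + bs.length + 1 → φ s = 0) :
    tau (Mf false φ) (0 :: a) (b :: bs) = 0 := by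
  rw [tau, Ps_md_zero false φ _ hφ a bs [b] (by simp) (by simp; omega)]
  have h := Ps_hd_zero true φ b bs a []
  rw [Bool.not_true] at h
  rw [h, add_zero]

lemma tauA_nil (φ : Fn) (b : ℕ) (bs : List ℕ) : tau (Mf false φ) [] (b :: bs) = 0 := by
  rw [tau, List.length_cons, mk_succ, Mf_S, if_pos rfl, md_s0]
  simp

/-! ### the symmetry -/

def sw (φ : Fn) : Fn
  | G L => φ (G L)
  | S t L l => φ (S (!t) L l)

@[simp] lemma sw_mk (φ : Fn) (t : Bool) (L : List ℕ) (m : ℕ) : sw φ (mk t L m) = φ (mk (!t) L m) := by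
  cases m <;> rfl

@[simp] lemma sw_sw (φ : Fn) : sw (sw φ) = φ := by
  funext s
  cases s <;> simp [sw]

lemma Rf_sw (φ : Fn) (b : Bool) : Rf b (sw φ) = sw (Rf (!b) φ) := by
  funext s
  match s with
  | G L => rfl
  | S t [] l => simp [sw]
  | S t (0 :: L) l =>
    rcases h : L[l]? with _ | _ | n <;> cases t <;> cases b <;> cases l <;> simp [sw, rm, h]
  | S t ((k + 1) :: L) l =>
    rcases h : L[l]? with _ | _ | n <;> cases t <;> cases b <;> cases l <;> simp [sw, rm, h]

lemma Mf_sw (φ : Fn) (b : Bool) : Mf b (sw φ) = sw (Mf (!b) φ) := by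
  funext s
  match s with
  | G [] => rfl
  | G (0 :: L) => rfl
  | G ((k + 1) :: L) => rfl
  | S t [] l => simp [sw]
  | S t (0 :: L) l =>
    rcases h : L[l]? with _ | _ | n <;> cases t <;> cases b <;> cases l <;> simp [sw, md, h]
  | S t ((k + 1) :: L) l =>
    rcases h : L[l]? with _ | _ | n <;> cases t <;> cases b <;> cases l <;> simp [sw, md, h]

lemma Ps_sw (t : Bool) (φ : Fn) (a : ℕ) (as : List ℕ) : ∀ (b p : List ℕ),
    Ps t (sw φ) p (a :: as) b = Ps (!t) φ p (a :: as) b := by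
  intro b
  induction b with
  | nil => intro p; rw [Ps_nil', Ps_nil', sw_mk]
  | cons b bs ih =>
    intro p
    rw [Ps_cons, Ps_cons, ih]
    simp only [sw_mk]

lemma tau_sw (φ : Fn) (a b : List ℕ) : tau (sw φ) a b = tau φ b a := by
  cases a with
  | nil =>
    cases b with
    | nil => rfl
    | cons b bs => rw [tau, tau, sw_mk]; rfl
  | cons a as =>
    cases b with
    | nil => rw [tau, tau]; rfl
    | cons b bs =>
      rw [tau, tau, Ps_sw, Ps_sw]
      simp only [Bool.not_false, Bool.not_true]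
      rw [add_comm]

/-! ### the operators `B`, `Y` on `tau` -/

lemma R_true (φ : Fn) : Rf true φ = sw (Rf false (sw φ)) := by
  rw [Rf_sw, sw_sw]; rfl
lemma M_true (φ : Fn) : Mf true φ = sw (Mf false (sw φ)) := by
  rw [Mf_sw, sw_sw]; rfl

lemma tauY (φ : Fn) (a : ℕ) (as b : List ℕ) :
    tau (Rf true φ) (a :: as) (0 :: b) = tau φ (a :: as) b := by
  rw [R_true, tau_sw, tauX, tau_sw]

lemma tauY_succ (φ : Fn) (n a : ℕ) (as b : List ℕ) :
    tau (Rf true φ) (a :: as) ((n + 1) :: b) = 0 := by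
  rw [R_true, tau_sw, tauX_succ]

lemma tauY_nil (φ : Fn) (a : ℕ) (as : List ℕ) : tau (Rf true φ) (a :: as) [] = 0 := by
  rw [R_true, tau_sw, tauX_nil]

lemma tauB_succ (φ : Fn) (n a : ℕ) (as b : List ℕ) :
    tau (Mf true φ) (a :: as) ((n + 1) :: b) = tau φ (a :: as) (n :: b) := by
  rw [M_true, tau_sw, tauA_succ, tau_sw]

lemma dep_sw_zero {φ : Fn} {N : ℕ} (hφ : ∀ s, dep s = N → φ s = 0) : ∀ s, dep s = N → sw φ s = 0 := by
  intro s hs
  cases s with
  | G L => exact hφ _ hs
  | S t L l => exact hφ (S (!t) L l) hs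

lemma tauB_zero (φ : Fn) (a : ℕ) (as b : List ℕ)
    (hφ : ∀ s, dep s = as.length + b.length + 1 → φ s = 0) :
    tau (Mf true φ) (a :: as) (0 :: b) = 0 := by
  rw [M_true, tau_sw, tauA_zero]
  rw [add_comm b.length]
  exact dep_sw_zero hφ

lemma tauB_nil (φ : Fn) (a : ℕ) (as : List ℕ) : tau (Mf true φ) (a :: as) [] = 0 := by
  rw [M_true, tau_sw, tauA_nil]

lemma tauZ (φ : Fn) (a : ℕ) (as b : List ℕ) : tau (Zf φ) (a :: as) b = 0 := by
  cases b with
  | nil => rw [tau]; rfl
  | cons b bs =>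
    rw [tau, Ps_Zf false φ a as bs [b] (by simp), Ps_Zf true φ b bs as [a] (by simp), add_zero]

end Pool.Agent.R921.GRT
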