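import Pool.Agent.R921.GRT.Def
import Pool.Agent.H777R4.DM.SmallShear
import Pool.Agent.H352.DSH.TwoC
import Pool.Agent.H50R3.DM.TwoB

/-! MP_446dfa_ag: elements of `𝔤𝔯𝔱₁` have no terms of weight at most two. -/

set_option autoImplicit false

namespace Pool.Agent.R921.GRT

open Pool.Agent.H777R4.DM

attribute [local instance 100] LieRing.ofAssociativeRing

/-- a family of commuting elements satisfies the braid relations -/
lemma braid_comm {B : Type} [CommRing B] {t : Fin 4 → Fin 4 → B} (h : ∀ i j, t i j = t j i) :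
    Braid t :=
  ⟨h, fun _ _ _ _ _ _ _ _ _ _ => mul_comm _ _, fun _ _ _ _ _ _ => mul_comm _ _⟩

/-- expansion of the part of weight `0` -/
lemma comp_zero_eq (ψ : A) : comp 0 ψ = co ψ [] • wd [] := by
  apply al_ext
  intro l
  rw [co_comp, co_smul, co_wd]
  cases l with
  | nil => simp
  | cons i l => simp

lemma comp_one_eq (ψ : A) : comp 1 ψ = co ψ [0] • wd [0] + co ψ [1] • wd [1] := by
  apply al_ext
  intro l
  rw [co_comp, co_add, co_smul, co_smul, co_wd, co_wd]
  rcases l with _ | ⟨i, _ | ⟨j, l⟩⟩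
  · simp
  · fin_cases i <;> simp
  · simp

lemma comp_two_eq (ψ : A) : comp 2 ψ = co ψ [0, 0] • wd [0, 0] + co ψ [0, 1] • wd [0, 1] +
    co ψ [1, 0] • wd [1, 0] + co ψ [1, 1] • wd [1, 1] := by
  apply al_ext
  intro l
  rw [co_comp]
  simp only [co_add, co_smul, co_wd]
  rcases l with _ | ⟨i, _ | ⟨j, _ | ⟨k, l⟩⟩⟩
  · simp
  · simp
  · fin_cases i <;> fin_cases j <;> simp
  · simp

lemma ev_one_letter {B : Type} [Ring B] [Algebra ℚ B] (a b : B) (i : Fin 2) :
    ev a b (wd [i]) = if i = 1 then b else a := by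
  rw [ev_cons, ev_nil, mul_one]

/-- the coefficients of weight one vanish -/
theorem grt_c {ψ : A} (h : IsGRT ψ) : co ψ [0] = 0 ∧ co ψ [1] = 0 := by
  have h1 := isGRT_comp h 1
  have hev : ∀ a b : ℚ, ev a b (comp 1 ψ) = co ψ [0] * a + co ψ [1] * b := by
    intro a b
    rw [comp_one_eq, map_add, map_smul, map_smul, ev_one_letter, ev_one_letter, if_neg (by decide),
      if_pos rfl, smul_eq_mul, smul_eq_mul]
  have key : ∀ t : Fin 4 → Fin 4 → ℚ, (∀ i j, t i j = t j i) →
      co ψ [0] * t 0 1 + co ψ [1] * t 2 3 = 0 := by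
    intro t ht
    have h2 := h1.pent ℚ t (braid_comm ht)
    unfold Pentagon at h2
    rw [hev, hev, hev, hev, hev] at h2
    linarith
  constructor
  · have := key (fun i j => if (i = 0 ∧ j = 1) ∨ (i = 1 ∧ j = 0) then 1 else 0) (by
      intro i j
      by_cases h1 : i = 0 <;> by_cases h2 : j = 0 <;> by_cases h3 : i = 1 <;> by_cases h4 : j = 1 <;>
        simp [h1, h2, h3, h4])
    simpa using this
  · have := key (fun i j => if (i = 2 ∧ j = 3) ∨ (i = 3 ∧ j = 2) then 1 else 0) (by
      intro i j
      by_cases h1 : i = 2 <;> by_cases h2 : j = 2 <;> by_cases h3 : i = 3 <;> by_cases h4 : j = 3 <;>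
        simp [h1, h2, h3, h4])
    simpa using this

lemma insertIdx_replicate (i : Fin 2) (n : ℕ) : ∀ j : ℕ, j ≤ n →
    (List.replicate n i).insertIdx j i = List.replicate (n + 1) i := by
  induction n with
  | zero =>
    intro j hj
    obtain rfl : j = 0 := by omega
    simp
  | succ n ih =>
    intro j hj
    cases j with
    | zero => simp [List.replicate_succ]
    | succ j =>
      rw [List.replicate_succ, List.insertIdx_succ_cons, ih j (by omega)]
      rfl

lemma co_nil_of_mem {ψ : A} (h : ψ ∈ LieX) : co ψ [] = 0 := by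
  have h := taskTwoB ψ h []
  simp at h
  linarith

lemma co_replicate {ψ : A} (h : ψ ∈ LieX) (i : Fin 2) (hi : co ψ [i] = 0) (n : ℕ) :
    co ψ (List.replicate n i) = 0 := by
  cases n with
  | zero => simpa using co_nil_of_mem h
  | succ n =>
    have h := Pool.Agent.H352.DSH.taskTwoC ψ h i hi (List.replicate n i)
    rw [List.length_replicate] at h
    rw [Finset.sum_congr rfl (fun j hj => by
      rw [insertIdx_replicate i n j (by
        have := Finset.mem_range.1 hj
        omega)])] at h
    rw [Finset.sum_const, Finset.card_range, nsmul_eq_mul] at h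
    rcases mul_eq_zero.1 h with h | h
    · exact absurd h (by positivity)
    · exact h

theorem grt_c01 {ψ : A} (h : IsGRT ψ) : co ψ [0, 1] = 0 := by
  have h00 : co ψ [0, 0] = 0 := co_replicate h.mem 0 (grt_c h).1 2
  have h11 : co ψ [1, 1] = 0 := co_replicate h.mem 1 (grt_c h).2 2
  have h10 : co ψ [1, 0] = - co ψ [0, 1] := by
    have h := taskTwoB ψ h.mem [0, 1]
    rw [show ([0, 1] : List (Fin 2)).reverse = [1, 0] from rfl] at h
    rw [h, show ([0, 1] : List (Fin 2)).length = 2 from rfl]
    ring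
  have h2 := isGRT_comp h 2
  have hev : ∀ a b : A, ev a b (comp 2 ψ) = co ψ [0, 1] • (a * b - b * a) := by
    intro a b
    rw [comp_two_eq, h00, h11, h10]
    simp only [map_add, map_smul, ev_cons, ev_nil, mul_one, if_neg (show (0 : Fin 2) ≠ 1 by decide),
      if_true]
    module
  have h3 := h2.hexa A (wd [0]) (wd [1]) (-(wd [0]) - wd [1]) (by abel)
  rw [hev, hev, hev] at h3
  have h4 : (co ψ [0, 1] • (wd [0] * wd [1] - wd [1] * wd [0]) +
      co ψ [0, 1] • (wd [1] * (-wd [0] - wd [1]) - (-wd [0] - wd [1]) * wd [1]) +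
      co ψ [0, 1] • ((-wd [0] - wd [1]) * wd [0] - wd [0] * (-wd [0] - wd [1])) : A) =
      (3 * co ψ [0, 1]) • (wd [0, 1] - wd [1, 0]) := by
    rw [show (wd [0, 1] : A) = wd [0] * wd [1] by rw [wd_mul]; rfl,
      show (wd [1, 0] : A) = wd [1] * wd [0] by rw [wd_mul]; rfl]
    simp only [mul_sub, sub_mul, mul_neg, neg_mul]
    module
  rw [h4] at h3
  have h5 := congrArg (fun P => co P [0, 1]) h3
  simp only [co_smul, co_sub, co_wd, co_zero] at h5
  simpa using h5

/-- all words of an element of `𝔤𝔯𝔱₁` have weight at least three and contain both letters -/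
theorem grt_small {ψ : A} (h : IsGRT ψ) (u : List (Fin 2)) (hu : co ψ u ≠ 0) :
    3 ≤ u.length ∧ 1 ≤ u.count 1 ∧ u.count 1 < u.length := by
  obtain ⟨c0, c1⟩ := grt_c h
  have h2 : ∀ i j : Fin 2, co ψ [i, j] = 0 := by
    intro i j
    match i, j with
    | 0, 0 => exact co_replicate h.mem 0 c0 2
    | 0, 1 => exact grt_c01 h
    | 1, 0 =>
      have h10 := taskTwoB ψ h.mem [0, 1]
      rw [grt_c01 h] at h10
      simpa using h10
    | 1, 1 => exact co_replicate h.mem 1 c1 2
  have h1 : ∀ i : Fin 2, co ψ [i] = 0 := by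
    intro i
    match i with
    | 0 => exact c0
    | 1 => exact c1
  refine ⟨?_, ?_, ?_⟩
  · by_contra hlen
    apply hu
    match u, hlen with
    | [], _ => exact co_nil_of_mem h.mem
    | [i], _ => exact h1 i
    | [i, j], _ => exact h2 i j
    | _ :: _ :: _ :: v, h => exact absurd (by simp only [List.length_cons]; omega) h
  · by_contra hcon
    have hc : u.count 1 = 0 := by omega
    have hmem : (1 : Fin 2) ∉ u := List.count_eq_zero.1 hc
    have hall : ∀ b ∈ u, b = (0 : Fin 2) := by
      intro b hb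
      have hb1 : b ≠ 1 := by
        rintro rfl
        exact hmem hb
      omega
    have hrep : u = List.replicate u.length 0 := List.eq_replicate_iff.2 ⟨rfl, hall⟩
    apply hu
    rw [hrep]
    exact co_replicate h.mem 0 c0 _
  · by_contra hcon
    have hc : u.count 1 = u.length := le_antisymm List.count_le_length (by omega)
    have hall : ∀ b ∈ u, b = (1 : Fin 2) := by
      intro b hb
      exact (List.count_eq_length.1 hc b hb).symm
    have hrep : u = List.replicate u.length 1 := List.eq_replicate_iff.2 ⟨rfl, hall⟩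
    apply hu
    rw [hrep]
    exact co_replicate h.mem 1 c1 _

/-- the lowest depth part is primitive -/
theorem grt_prim0 {ψ : A} (h : IsGRT ψ) (r : ℕ) (hr1 : 1 ≤ r) (hr : ∀ u, co ψ u ≠ 0 → r ≤ u.count 1)
    (F : AY) (hF : ∀ v, co F v = if v.length = r then co ψ (wordX v) else 0) : Prim F := by
  refine prim_of_pentagon ψ r hr1 hr ?_ (h.pent _ _ braid_tt) F hF
  intro u hu
  have h1 := (grt_small h u hu).2.2
  have h2 := hr u hu
  omega

end Pool.Agent.R921.GRT
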