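import Pool.Agent.H777R4.DM.Basic

/-! MP_446dfa_ag: an explicit representation of the Drinfeld-Kohno Lie algebra of four strands. -/

set_option autoImplicit false

namespace Pool.Agent.R921.GRT

/-- States: `G L` and `S t L l` (marker `l + 1`). -/
inductive State : Type
  | G (L : List ℕ) : State
  | S (t : Bool) (L : List ℕ) (l : ℕ) : State

open State

/-- marker `m ≥ 0` -/
def mk (t : Bool) (L : List ℕ) : ℕ → State
  | 0 => G L
  | m + 1 => S t L m

@[simp] lemma mk_zero (t : Bool) (L : List ℕ) : mk t L 0 = G L := rfl
@[simp] lemma mk_succ (t : Bool) (L : List ℕ) (m : ℕ) : mk t L (m + 1) = S t L m := rfl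

def dep : State → ℕ
  | G L => L.length
  | S _ L _ => L.length

abbrev Fn : Type := State → ℚ

/-- decrement the head -/
def hd (φ : Fn) : State → ℚ
  | G [] => 0
  | G (0 :: _) => 0
  | G ((n + 1) :: L) => φ (G (n :: L))
  | S _ [] _ => 0
  | S _ (0 :: _) _ => 0
  | S t ((n + 1) :: L) l => φ (S t (n :: L) l)

/-- remove the head -/
def pp (φ : Fn) : State → ℚ
  | G [] => 0
  | G ((_ + 1) :: _) => 0
  | G (0 :: L) => φ (G L)
  | S _ [] _ => 0
  | S _ ((_ + 1) :: _) _ => 0
  | S t (0 :: L) l => φ (mk t L l)

/-- multiplication at the marker -/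
def md (φ : Fn) (t : Bool) (L : List ℕ) (l : ℕ) : ℚ :=
  match L[l + 1]? with
  | none => 0
  | some 0 => - φ (mk t (L.eraseIdx (l + 1)) l)
  | some (n + 1) => φ (S t (L.set (l + 1) n) l)

/-- removal at the marker -/
def rm (φ : Fn) (t : Bool) (L : List ℕ) (l : ℕ) : ℚ :=
  match L[l + 1]? with
  | none => 0
  | some 0 => φ (S t (L.eraseIdx (l + 1)) l) - φ (mk t (L.eraseIdx (l + 1)) l)
  | some (_ + 1) => 0

def Mf (b : Bool) (φ : Fn) : Fn
  | G L => hd φ (G L)
  | S t L l => if t = b then md φ t L l else hd φ (S t L l)

def Rf (b : Bool) (φ : Fn) : Fn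
  | G _ => 0
  | S t L l => if t = b then rm φ t L l else pp φ (S t L l)

def Zf (φ : Fn) : Fn
  | G L => pp φ (G L)
  | S _ _ _ => 0

section simps
variable (φ : Fn) (t b : Bool) (L : List ℕ) (l n k : ℕ)

@[simp] lemma hd_G0 : hd φ (G []) = 0 := rfl
@[simp] lemma hd_G1 : hd φ (G (0 :: L)) = 0 := rfl
@[simp] lemma hd_G2 : hd φ (G ((n + 1) :: L)) = φ (G (n :: L)) := rfl
@[simp] lemma hd_S0 : hd φ (S t [] l) = 0 := rfl
@[simp] lemma hd_S1 : hd φ (S t (0 :: L) l) = 0 := rfl
@[simp] lemma hd_S2 : hd φ (S t ((n + 1) :: L) l) = φ (S t (n :: L) l) := rfl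
@[simp] lemma pp_G0 : pp φ (G []) = 0 := rfl
@[simp] lemma pp_G1 : pp φ (G (0 :: L)) = φ (G L) := rfl
@[simp] lemma pp_G2 : pp φ (G ((n + 1) :: L)) = 0 := rfl
@[simp] lemma pp_S0 : pp φ (S t [] l) = 0 := rfl
@[simp] lemma pp_S1 : pp φ (S t (0 :: L) l) = φ (mk t L l) := rfl
@[simp] lemma pp_S2 : pp φ (S t ((n + 1) :: L) l) = 0 := rfl
@[simp] lemma md_nil : md φ t [] l = 0 := rfl
@[simp] lemma md_s0 (h : L[l + 1]? = none) : md φ t L l = 0 := by simp only [md, h]
@[simp] lemma md_s1 (h : L[l + 1]? = some 0) : md φ t L l = - φ (mk t (L.eraseIdx (l + 1)) l) := by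
  simp only [md, h]
@[simp] lemma md_s2 (h : L[l + 1]? = some (n + 1)) : md φ t L l = φ (S t (L.set (l + 1) n) l) := by
  simp only [md, h]
@[simp] lemma rm_nil : rm φ t [] l = 0 := rfl
@[simp] lemma rm_s0 (h : L[l + 1]? = none) : rm φ t L l = 0 := by simp only [rm, h]
@[simp] lemma rm_s1 (h : L[l + 1]? = some 0) :
    rm φ t L l = φ (S t (L.eraseIdx (l + 1)) l) - φ (mk t (L.eraseIdx (l + 1)) l) := by
  simp only [rm, h]
@[simp] lemma rm_s2 (h : L[l + 1]? = some (n + 1)) : rm φ t L l = 0 := by
  simp only [rm, h]
@[simp] lemma Mf_G : Mf b φ (G L) = hd φ (G L) := rfl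
@[simp] lemma Mf_S : Mf b φ (S t L l) = if t = b then md φ t L l else hd φ (S t L l) := rfl
@[simp] lemma Rf_G : Rf b φ (G L) = 0 := rfl
@[simp] lemma Rf_S : Rf b φ (S t L l) = if t = b then rm φ t L l else pp φ (S t L l) := rfl
@[simp] lemma Zf_G : Zf φ (G L) = pp φ (G L) := rfl
@[simp] lemma Zf_S : Zf φ (S t L l) = 0 := rfl

end simps

lemma opt_cases {p : Option ℕ → Prop} (h0 : p none) (h1 : p (some 0)) (h2 : ∀ n, p (some (n + 1))) :
    ∀ o, p o
  | none => h0
  | some 0 => h1
  | some (n + 1) => h2 n

/-- `[A, B] = 0` -/
theorem M_comm (φ : Fn) (b : Bool) : Mf b (Mf (!b) φ) = Mf (!b) (Mf b φ) := by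
  funext s
  match s with
  | G [] => simp
  | G (0 :: L) => simp
  | G ((n + 1) :: L) => simp
  | S t L l =>
    by_cases ht : t = b
    · subst ht
      rw [Mf_S, if_pos rfl, Mf_S, if_neg (by simp)]
      match L with
      | [] => simp
      | 0 :: L =>
        rcases h : L[l]? with _ | _ | n
        · rw [md_s0 _ _ _ _ (by simpa using h)]; simp
        · rw [md_s1 _ _ _ _ (by simpa using h)]
          cases l <;> simp
        · rw [md_s2 _ _ _ _ n (by simpa using h)]
          simp
      | (k + 1) :: L =>
        rcases h : L[l]? with _ | _ | n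
        · rw [md_s0 _ _ _ _ (by simpa using h)]; simp [h]
        · rw [md_s1 _ _ _ _ (by simpa using h)]
          cases l <;> simp [h]
        · rw [md_s2 _ _ _ _ n (by simpa using h)]
          simp [h]
    · have ht' : t = !b := by cases t <;> cases b <;> simp_all
      subst ht'
      rw [Mf_S, if_neg (by simp), Mf_S, if_pos rfl]
      match L with
      | [] => simp
      | 0 :: L =>
        rcases h : L[l]? with _ | _ | n
        · rw [md_s0 _ _ _ _ (by simpa using h)]; simp
        · rw [md_s1 _ _ _ _ (by simpa using h)]
          cases l <;> simp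
        · rw [md_s2 _ _ _ _ n (by simpa using h)]
          simp
      | (k + 1) :: L =>
        rcases h : L[l]? with _ | _ | n
        · rw [md_s0 _ _ _ _ (by simpa using h)]; simp [h]
        · rw [md_s1 _ _ _ _ (by simpa using h)]
          cases l <;> simp [h]
        · rw [md_s2 _ _ _ _ n (by simpa using h)]
          simp [h]


/-- `[A, Y] = 0` and `[B, X] = 0` -/
theorem MR_comm (φ : Fn) (b : Bool) : Mf b (Rf (!b) φ) = Rf (!b) (Mf b φ) := by
  funext s
  match s with
  | G [] => simp
  | G (0 :: L) => simp
  | G ((n + 1) :: L) => simp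
  | S t L l =>
    by_cases ht : t = b
    · subst ht
      rw [Mf_S, if_pos rfl, Rf_S, if_neg (by simp)]
      match L with
      | [] => simp
      | 0 :: L =>
        rcases h : L[l]? with _ | _ | n
        · rw [md_s0 _ _ _ _ (by simpa using h)]
          cases l with
          | zero => cases L <;> simp_all
          | succ l => simp [h]
        · rw [md_s1 _ _ _ _ (by simpa using h)]
          cases l with
          | zero => cases L <;> simp_all
          | succ l => simp [h]
        · rw [md_s2 _ _ _ _ n (by simpa using h)]
          cases l with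
          | zero => cases L <;> simp_all
          | succ l => simp [h]
      | (k + 1) :: L =>
        rcases h : L[l]? with _ | _ | n
        · rw [md_s0 _ _ _ _ (by simpa using h)]; simp
        · rw [md_s1 _ _ _ _ (by simpa using h)]
          cases l <;> simp
        · rw [md_s2 _ _ _ _ n (by simpa using h)]
          simp
    · have ht' : t = !b := by cases t <;> cases b <;> simp_all
      subst ht'
      rw [Mf_S, if_neg (by simp), Rf_S, if_pos rfl]
      match L with
      | [] => simp
      | 0 :: L =>
        rcases h : L[l]? with _ | _ | n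
        · rw [rm_s0 _ _ _ _ (by simpa using h)]; simp
        · rw [rm_s1 _ _ _ _ (by simpa using h)]
          cases l <;> simp
        · rw [rm_s2 _ _ _ _ n (by simpa using h)]
          simp
      | (k + 1) :: L =>
        rcases h : L[l]? with _ | _ | n
        · rw [rm_s0 _ _ _ _ (by simpa using h)]; simp [h]
        · rw [rm_s1 _ _ _ _ (by simpa using h)]
          cases l <;> simp [h]
        · rw [rm_s2 _ _ _ _ n (by simpa using h)]
          simp [h]

/-- `[X, Y + Z] = 0` and `[Y, X + Z] = 0` -/
theorem RR_comm (φ : Fn) (b : Bool) :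
    Rf b (Rf (!b) φ + Zf φ) = Rf (!b) (Rf b φ) + Zf (Rf b φ) := by
  funext s
  match s with
  | G [] => simp
  | G (0 :: L) => simp
  | G ((n + 1) :: L) => simp
  | S t L l =>
    by_cases ht : t = b
    · subst ht
      rw [Pi.add_apply, Rf_S, if_pos rfl, Rf_S, if_neg (by simp), Zf_S, add_zero]
      match L with
      | [] => simp
      | 0 :: L =>
        rcases h : L[l]? with _ | _ | n
        · rw [rm_s0 _ _ _ _ (by simpa using h)]
          cases l with
          | zero => cases L <;> simp_all
          | succ l => simp [h]
        · rw [rm_s1 _ _ _ _ (by simpa using h)]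
          cases l with
          | zero => cases L <;> simp_all
          | succ l => simp [h]
        · rw [rm_s2 _ _ _ _ n (by simpa using h)]
          cases l with
          | zero => cases L <;> simp_all
          | succ l => simp [h]
      | (k + 1) :: L =>
        rcases h : L[l]? with _ | _ | n
        · rw [rm_s0 _ _ _ _ (by simpa using h)]; simp
        · rw [rm_s1 _ _ _ _ (by simpa using h)]
          cases l <;> simp
        · rw [rm_s2 _ _ _ _ n (by simpa using h)]
          simp
    · have ht' : t = !b := by cases t <;> cases b <;> simp_all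
      subst ht'
      rw [Pi.add_apply, Rf_S, if_neg (by simp), Rf_S, if_pos rfl, Zf_S, add_zero]
      match L with
      | [] => simp
      | 0 :: L =>
        rcases h : L[l]? with _ | _ | n
        · rw [rm_s0 _ _ _ _ (by simpa using h)]
          cases l with
          | zero => cases L <;> simp_all
          | succ l => simp [h]
        · rw [rm_s1 _ _ _ _ (by simpa using h)]
          cases l with
          | zero => cases L <;> simp_all
          | succ l => simp [h]
        · rw [rm_s2 _ _ _ _ n (by simpa using h)]
          cases l with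
          | zero => cases L <;> simp_all
          | succ l => simp [h]
      | (k + 1) :: L =>
        rcases h : L[l]? with _ | _ | n
        · rw [rm_s0 _ _ _ _ (by simpa using h)]; simp
        · rw [rm_s1 _ _ _ _ (by simpa using h)]
          cases l <;> simp
        · rw [rm_s2 _ _ _ _ n (by simpa using h)]
          simp

/-- `[Z, X + Y] = 0` -/
theorem ZR_comm (φ : Fn) (b : Bool) :
    Zf (Rf b φ + Rf (!b) φ) = Rf b (Zf φ) + Rf (!b) (Zf φ) := by
  funext s
  match s with
  | G [] => simp
  | G (0 :: L) => simp
  | G ((n + 1) :: L) => simp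
  | S t L l =>
    by_cases ht : t = b
    · subst ht
      rw [Pi.add_apply, Rf_S, if_pos rfl, Rf_S, if_neg (by simp), Zf_S]
      match L with
      | [] => simp
      | 0 :: L =>
        rcases h : L[l]? with _ | _ | n
        · rw [rm_s0 _ _ _ _ (by simpa using h)]
          cases l with
          | zero => cases L <;> simp_all
          | succ l => simp
        · rw [rm_s1 _ _ _ _ (by simpa using h)]
          cases l with
          | zero => cases L <;> simp_all
          | succ l => simp
        · rw [rm_s2 _ _ _ _ n (by simpa using h)]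
          cases l with
          | zero => cases L <;> simp_all
          | succ l => simp
      | (k + 1) :: L =>
        rcases h : L[l]? with _ | _ | n
        · rw [rm_s0 _ _ _ _ (by simpa using h)]; simp
        · rw [rm_s1 _ _ _ _ (by simpa using h)]
          cases l <;> simp
        · rw [rm_s2 _ _ _ _ n (by simpa using h)]
          simp
    · have ht' : t = !b := by cases t <;> cases b <;> simp_all
      subst ht'
      rw [Pi.add_apply, Rf_S, if_neg (by simp), Rf_S, if_pos rfl, Zf_S]
      match L with
      | [] => simp
      | 0 :: L =>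
        rcases h : L[l]? with _ | _ | n
        · rw [rm_s0 _ _ _ _ (by simpa using h)]
          cases l with
          | zero => cases L <;> simp_all
          | succ l => simp
        · rw [rm_s1 _ _ _ _ (by simpa using h)]
          cases l with
          | zero => cases L <;> simp_all
          | succ l => simp
        · rw [rm_s2 _ _ _ _ n (by simpa using h)]
          cases l with
          | zero => cases L <;> simp_all
          | succ l => simp
      | (k + 1) :: L =>
        rcases h : L[l]? with _ | _ | n
        · rw [rm_s0 _ _ _ _ (by simpa using h)]; simp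
        · rw [rm_s1 _ _ _ _ (by simpa using h)]
          cases l <;> simp
        · rw [rm_s2 _ _ _ _ n (by simpa using h)]
          simp

/-- `[Z, B - A + X] = 0` -/
theorem ZM_comm (φ : Fn) (b : Bool) :
    Zf (Mf (!b) φ - Mf b φ + Rf b φ) = Mf (!b) (Zf φ) - Mf b (Zf φ) + Rf b (Zf φ) := by
  funext s
  match s with
  | G [] => simp
  | G [0] => simp
  | G (0 :: 0 :: L) => simp
  | G (0 :: (n + 1) :: L) => simp
  | G ((n + 1) :: L) => simp
  | S t L l =>
    by_cases ht : t = b
    · subst ht
      rw [Pi.add_apply, Pi.sub_apply, Rf_S, if_pos rfl, Mf_S, if_neg (by simp), Mf_S, if_pos rfl, Zf_S]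
      match L with
      | [] => simp
      | 0 :: L =>
        rcases h : L[l]? with _ | _ | n
        · rw [rm_s0 _ _ _ _ (by simpa using h), md_s0 _ _ _ _ (by simpa using h)]
          cases l with
          | zero => cases L <;> simp_all
          | succ l => simp
        · rw [rm_s1 _ _ _ _ (by simpa using h), md_s1 _ _ _ _ (by simpa using h)]
          cases l with
          | zero => cases L <;> simp_all
          | succ l => simp
        · rw [rm_s2 _ _ _ _ n (by simpa using h), md_s2 _ _ _ _ n (by simpa using h)]
          cases l with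
          | zero => cases L <;> simp_all
          | succ l => simp
      | (k + 1) :: L =>
        rcases h : L[l]? with _ | _ | n
        · rw [rm_s0 _ _ _ _ (by simpa using h), md_s0 _ _ _ _ (by simpa using h)]; simp
        · rw [rm_s1 _ _ _ _ (by simpa using h), md_s1 _ _ _ _ (by simpa using h)]
          cases l <;> simp
        · rw [rm_s2 _ _ _ _ n (by simpa using h), md_s2 _ _ _ _ n (by simpa using h)]
          simp
    · have ht' : t = !b := by cases t <;> cases b <;> simp_all
      subst ht'
      rw [Pi.add_apply, Pi.sub_apply, Rf_S, if_neg (by simp), Mf_S, if_pos rfl, Mf_S, if_neg (by simp), Zf_S]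
      match L with
      | [] => simp
      | 0 :: L =>
        rcases h : L[l]? with _ | _ | n
        · rw [md_s0 _ _ _ _ (by simpa using h)]
          cases l with
          | zero => cases L <;> simp_all
          | succ l => simp
        · rw [md_s1 _ _ _ _ (by simpa using h)]
          cases l with
          | zero => cases L <;> simp_all
          | succ l => simp
        · rw [md_s2 _ _ _ _ n (by simpa using h)]
          cases l with
          | zero => cases L <;> simp_all
          | succ l => simp
      | (k + 1) :: L =>
        rcases h : L[l]? with _ | _ | n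
        · rw [md_s0 _ _ _ _ (by simpa using h)]; simp
        · rw [md_s1 _ _ _ _ (by simpa using h)]
          cases l <;> simp
        · rw [md_s2 _ _ _ _ n (by simpa using h)]
          simp

end Pool.Agent.R921.GRT
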