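import Pool.Agent.R921.GRT.Sh

/-! MP_446dfa_ag: values of words, and the shuffle relation for the lowest depth part. -/

set_option autoImplicit false

namespace Pool.Agent.R921.GRT

open State Pool.Agent.H777R4.DM

def lst : State → List ℕ
  | G L => L
  | S _ L _ => L

lemma dep_eq (s : State) : dep s = (lst s).length := by cases s <;> rfl
@[simp] lemma dep_G (L : List ℕ) : dep (G L) = L.length := rfl
@[simp] lemma dep_S (t : Bool) (L : List ℕ) (l : ℕ) : dep (S t L l) = L.length := rfl
@[simp] lemma dep_mk (t : Bool) (L : List ℕ) (m : ℕ) : dep (mk t L m) = L.length := by cases m <;> rfl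
@[simp] lemma lst_G (L : List ℕ) : lst (G L) = L := rfl
@[simp] lemma lst_S (t : Bool) (L : List ℕ) (l : ℕ) : lst (S t L l) = L := rfl
@[simp] lemma lst_mk (t : Bool) (L : List ℕ) (m : ℕ) : lst (mk t L m) = L := by cases m <;> rfl

def ok (b : Bool) : State → Prop
  | G _ => True
  | S t L l => t = b ∧ l < L.length

@[simp] lemma ok_G (b : Bool) (L : List ℕ) : ok b (G L) := trivial
@[simp] lemma ok_S (b t : Bool) (L : List ℕ) (l : ℕ) : ok b (S t L l) ↔ t = b ∧ l < L.length := Iff.rfl
lemma ok_mk (b : Bool) (L : List ℕ) (m : ℕ) (h : m ≤ L.length) : ok b (mk b L m) := by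
  cases m
  · simp
  · simp; omega

lemma co_nil_nil : co (wd ([] : List (Fin 2))) [] = 1 := by rw [co_wd, if_pos rfl]
lemma co_nil_cons (i : Fin 2) (v : List (Fin 2)) : co (wd ([] : List (Fin 2))) (i :: v) = 0 := by
  rw [co_wd, if_neg (by simp)]
lemma co_cons_nil (i : Fin 2) (v : List (Fin 2)) : co (wd (i :: v)) [] = 0 := by
  rw [co_wd, if_neg (by simp)]
lemma co_cons_eq (i : Fin 2) (u v : List (Fin 2)) : co (wd (i :: u)) (i :: v) = co (wd u) v := by
  rw [co_wd, co_wd]
  by_cases h : u = v
  · rw [if_pos h, if_pos (by rw [h])]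
  · rw [if_neg h, if_neg (by simpa using h)]
lemma co_cons_ne {i j : Fin 2} (h : i ≠ j) (u v : List (Fin 2)) : co (wd (i :: u)) (j :: v) = 0 := by
  rw [co_wd, if_neg (by simp [h])]

lemma getElem_lt {L : List ℕ} {l a : ℕ} (h : L[l]? = some a) : l < L.length := by
  by_contra hc
  rw [List.getElem?_eq_none (by omega)] at h
  exact absurd h (by simp)

lemma R_dep (b : Bool) (φ : Fn) (s : State) (h : ∀ s', dep s' + 1 = dep s → φ s' = 0) :
    Rf b φ s = 0 := by
  match s with
  | G L => rfl
  | S t [] l => rw [Rf_S]; split_ifs <;> rfl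
  | S t (k :: L) l =>
    rw [Rf_S]
    split_ifs with ht
    · rcases hL : L[l]? with _ | _ | n
      · rw [rm_s0 _ _ _ _ (by simpa using hL)]
      · rw [rm_s1 _ _ _ _ (by simpa using hL)]
        have hlt := getElem_lt hL
        have e : (L.eraseIdx l).length + 1 = L.length := by
          rw [List.length_eraseIdx_of_lt hlt]; omega
        rw [h _ (by simp [e]), h _ (by simp [e]), sub_zero]
      · rw [rm_s2 _ _ _ _ n (by simpa using hL)]
    · cases k with
      | zero => rw [pp_S1, h _ (by simp)]
      | succ k => rfl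

lemma Z_dep (φ : Fn) (s : State) (h : ∀ s', dep s' + 1 = dep s → φ s' = 0) : Zf φ s = 0 := by
  match s with
  | G [] => rfl
  | G (0 :: L) => exact h _ (by simp)
  | G ((k + 1) :: L) => rfl
  | S t L l => rfl

lemma M_dep (b : Bool) (φ : Fn) (s : State) (h : ∀ s', dep s' ≤ dep s → φ s' = 0) :
    Mf b φ s = 0 := by
  match s with
  | G [] => rfl
  | G (0 :: L) => rfl
  | G ((k + 1) :: L) => exact h _ (by simp)
  | S t [] l => rw [Mf_S]; split_ifs <;> rfl
  | S t (k :: L) l =>
    rw [Mf_S]
    split_ifs with ht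
    · rcases hL : L[l]? with _ | _ | n
      · rw [md_s0 _ _ _ _ (by simpa using hL)]
      · rw [md_s1 _ _ _ _ (by simpa using hL)]
        have hlt := getElem_lt hL
        have e : (L.eraseIdx l).length + 1 = L.length := by
          rw [List.length_eraseIdx_of_lt hlt]; omega
        rw [h _ (by simp; omega), neg_zero]
      · rw [md_s2 _ _ _ _ n (by simpa using hL), h _ (by simp)]
    · cases k with
      | zero => rfl
      | succ k => rw [hd_S2, h _ (by simp)]

def vac : Fn
  | G [] => 1
  | G (_ :: _) => 0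
  | S _ _ _ => 0

/-- the word `u` in the operators `e0`, `e1`, applied to the vacuum -/
def W (e0 e1 : Module.End ℚ Fn) : List (Fin 2) → Fn
  | [] => vac
  | i :: u => (if i = 1 then e1 else e0) (W e0 e1 u)

lemma W_zero (e0 e1 : Module.End ℚ Fn) (u : List (Fin 2)) : W e0 e1 (0 :: u) = e0 (W e0 e1 u) := by
  rw [W, if_neg (by decide)]
lemma W_one (e0 e1 : Module.End ℚ Fn) (u : List (Fin 2)) : W e0 e1 (1 :: u) = e1 (W e0 e1 u) := by
  rw [W, if_pos rfl]

/-- evaluation of a noncommutative polynomial in `x₀`, `x₁` at `a`, `b` -/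
noncomputable def ev {B : Type} [Ring B] [Algebra ℚ B] (a b : B) : A →ₐ[ℚ] B :=
  MonoidAlgebra.lift ℚ B (FreeMonoid (Fin 2)) (FreeMonoid.lift ![a, b])

lemma ev_nil {B : Type} [Ring B] [Algebra ℚ B] (a b : B) : ev a b (wd []) = 1 := by
  unfold ev wd
  rw [MonoidAlgebra.lift_of]
  rfl

lemma ev_cons {B : Type} [Ring B] [Algebra ℚ B] (a b : B) (i : Fin 2) (u : List (Fin 2)) :
    ev a b (wd (i :: u)) = (if i = 1 then b else a) * ev a b (wd u) := by
  unfold ev wd
  rw [MonoidAlgebra.lift_of, MonoidAlgebra.lift_of, FreeMonoid.ofList_cons, map_mul,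
    FreeMonoid.lift_eval_of]
  fin_cases i <;> simp

lemma ev_W (e0 e1 : Module.End ℚ Fn) (u : List (Fin 2)) : ev e0 e1 (wd u) vac = W e0 e1 u := by
  induction u with
  | nil => rw [ev_nil]; rfl
  | cons i u ih => rw [ev_cons, Module.End.mul_apply, ih]; rfl

lemma lin_supp {V : Type} [AddCommGroup V] [Module ℚ V] (F H : A →ₗ[ℚ] V) (ψ : A)
    (h : ∀ u, co ψ u ≠ 0 → F (wd u) = H (wd u)) : F ψ = H ψ := by
  have h2 : ∀ Q : A, Q = ∑ m ∈ Q.coeff.support, Q.coeff m • wd (FreeMonoid.toList m) := by
    intro Q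
    ext m
    have h3 := congrArg (fun f => f m) (Finsupp.sum_single Q.coeff)
    simp only [Finsupp.sum] at h3
    simp only [wd, MonoidAlgebra.coeff_sum]
    rw [← h3]
    simp
  rw [h2 ψ, map_sum, map_sum]
  apply Finset.sum_congr rfl
  intro m hm
  rw [map_smul, map_smul, h _ (by simpa [co] using hm)]

/-- words have no value in small depth -/
lemma W_low {e0 e1 : Module.End ℚ Fn}
    (h0 : ∀ (φ : Fn) (s : State), (∀ s', dep s' ≤ dep s → φ s' = 0) → e0 φ s = 0)
    (h1 : ∀ (φ : Fn) (s : State), (∀ s', dep s' + 1 = dep s → φ s' = 0) → e1 φ s = 0) :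
    ∀ (u : List (Fin 2)) (s : State), dep s < u.count 1 → W e0 e1 u s = 0 := by
  intro u
  induction u with
  | nil => intro s hs; simp at hs
  | cons i u ih =>
    intro s hs
    by_cases hi : i = 1
    · subst hi
      rw [W_one]
      rw [List.count_cons_self] at hs
      exact h1 _ _ fun s' hs' => ih s' (by omega)
    · have hi0 : i = 0 := by omega
      subst hi0
      rw [W_zero]
      rw [List.count_cons_of_ne (by decide)] at hs
      exact h0 _ _ fun s' hs' => ih s' (by omega)

lemma wordX_zero (L : List ℕ) : wordX (0 :: L) = 1 :: wordX L := rfl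
lemma wordX_succ (n : ℕ) (L : List ℕ) : wordX ((n + 1) :: L) = 0 :: wordX (n :: L) := by
  simp [wordX, List.replicate_succ]

/-- the value of a word when `e0`, `e1` act on the head -/
lemma W_val {e0 e1 : Module.End ℚ Fn} (b : Bool)
    (h0 : ∀ (φ : Fn) (s : State), (∀ s', dep s' ≤ dep s → φ s' = 0) → e0 φ s = 0)
    (h1 : ∀ (φ : Fn) (s : State), (∀ s', dep s' + 1 = dep s → φ s' = 0) → e1 φ s = 0)
    (H0 : ∀ (φ : Fn) (s : State), ok b s → (∀ s', dep s' < dep s → φ s' = 0) → e0 φ s = hd φ s)
    (H1 : ∀ (φ : Fn) (s : State), ok b s → e1 φ s = - pp φ s) :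
    ∀ (u : List (Fin 2)) (s : State), ok b s → dep s = u.count 1 →
      W e0 e1 u s = (-1) ^ (dep s) * co (wd u) (wordX (lst s)) := by
  intro u
  induction u with
  | nil =>
    intro s hb hs
    match s, hb with
    | G [], _ => simp [W, vac, wordX, co_nil_nil]
    | G (a :: L), _ => simp at hs
    | S t L l, hb =>
      simp only [dep_S, List.count_nil] at hs
      have := hb.2
      omega
  | cons i u ih =>
    intro s hb hs
    by_cases hi : i = 1
    · subst hi
      rw [W_one, H1 _ _ hb]
      rw [List.count_cons_self] at hs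
      match s, hb with
      | G [], _ => simp at hs
      | G (0 :: L), _ =>
        rw [pp_G1, ih _ (by simp) (by simpa using hs)]
        simp only [lst_G, wordX_zero, dep_G, List.length_cons, co_cons_eq]
        ring
      | G ((n + 1) :: L), _ =>
        rw [pp_G2, lst_G, wordX_succ, co_cons_ne (by decide)]
        ring
      | S t [] l, _ => simp at hs
      | S t (0 :: L) l, hb =>
        obtain ⟨hb1, hb2⟩ := hb
        subst hb1
        rw [pp_S1, ih _ (ok_mk _ _ _ (by simpa using Nat.lt_succ_iff.mp hb2)) (by simpa using hs)]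
        simp only [lst_S, lst_mk, dep_mk, wordX_zero, dep_S, List.length_cons, co_cons_eq]
        ring
      | S t ((n + 1) :: L) l, _ =>
        rw [pp_S2, lst_S, wordX_succ, co_cons_ne (by decide)]
        ring
    · have hi0 : i = 0 := by omega
      subst hi0
      rw [List.count_cons_of_ne (by decide)] at hs
      rw [W_zero, H0 _ _ hb (fun s' hs' => W_low h0 h1 u s' (by omega))]
      match s, hb with
      | G [], _ => simp [wordX, co_cons_nil]
      | G (0 :: L), _ =>
        rw [hd_G1, lst_G, wordX_zero, co_cons_ne (by decide)]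
        ring
      | G ((n + 1) :: L), _ =>
        rw [hd_G2, ih _ (by simp) (by simpa using hs)]
        simp only [lst_G, wordX_succ, dep_G, List.length_cons, co_cons_eq]
      | S t [] l, _ => simp [wordX, co_cons_nil]
      | S t (0 :: L) l, _ =>
        rw [hd_S1, lst_S, wordX_zero, co_cons_ne (by decide)]
        ring
      | S t ((n + 1) :: L) l, hb =>
        obtain ⟨hb1, hb2⟩ := hb
        subst hb1
        rw [hd_S2, ih (S t (n :: L) l) ⟨rfl, by simpa using hb2⟩ (by simpa using hs)]
        simp only [lst_S, wordX_succ, dep_S, List.length_cons, co_cons_eq]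

/-- words with no value -/
lemma W_none {e0 e1 : Module.End ℚ Fn} (p : State → Prop)
    (h0 : ∀ (φ : Fn) (s : State), p s → (∀ s', p s' → s' ≠ G [] → φ s' = 0) → e0 φ s = 0)
    (h1 : ∀ (φ : Fn) (s : State), p s → (∀ s', p s' → s' ≠ G [] → φ s' = 0) → e1 φ s = 0) :
    ∀ (u : List (Fin 2)), u ≠ [] → ∀ s, p s → W e0 e1 u s = 0 := by
  have key : ∀ (u : List (Fin 2)) (s : State), p s → s ≠ G [] → W e0 e1 u s = 0 := by
    intro u
    induction u with
    | nil =>
      intro s _ hs
      match s with
      | G [] => exact absurd rfl hs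
      | G (_ :: _) => rfl
      | S _ _ _ => rfl
    | cons i u ih =>
      intro s hp hs
      rw [W]
      split_ifs
      · exact h1 _ _ hp ih
      · exact h0 _ _ hp ih
  intro u hu s hp
  cases u with
  | nil => exact absurd rfl hu
  | cons i u =>
    rw [W]
    split_ifs
    · exact h1 _ _ hp (key u)
    · exact h0 _ _ hp (key u)

/-- both operators lower the depth -/
lemma W_len {e0 e1 : Module.End ℚ Fn}
    (h0 : ∀ (φ : Fn) (s : State), (∀ s', dep s' + 1 = dep s → φ s' = 0) → e0 φ s = 0)
    (h1 : ∀ (φ : Fn) (s : State), (∀ s', dep s' + 1 = dep s → φ s' = 0) → e1 φ s = 0) :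
    ∀ (u : List (Fin 2)) (s : State), dep s ≠ u.length → W e0 e1 u s = 0 := by
  intro u
  induction u with
  | nil =>
    intro s hs
    match s with
    | G [] => simp at hs
    | G (_ :: _) => rfl
    | S _ _ _ => rfl
  | cons i u ih =>
    intro s hs
    rw [List.length_cons] at hs
    rw [W]
    split_ifs
    · exact h1 _ _ fun s' hs' => ih s' (by omega)
    · exact h0 _ _ fun s' hs' => ih s' (by omega)

/-! ### the operators at the tags -/

def tag (b : Bool) : State → Prop
  | G _ => True
  | S t _ _ => t = b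

lemma ok_tag {b : Bool} {s : State} (h : ok b s) : tag b s := by
  cases s
  · trivial
  · exact h.1

lemma M_hd (b : Bool) (φ : Fn) {s : State} (h : tag (!b) s) : Mf b φ s = hd φ s := by
  cases s with
  | G L => rfl
  | S t L l =>
    have ht : t = !b := h
    rw [Mf_S, if_neg (by rw [ht]; simp)]

lemma R_pp (b : Bool) (φ : Fn) {s : State} (h : tag (!b) s) : Rf b φ s + Zf φ s = pp φ s := by
  cases s with
  | G L => rw [Rf_G, Zf_G, zero_add]
  | S t L l =>
    have ht : t = !b := h
    rw [Rf_S, if_neg (by rw [ht]; simp), Zf_S, add_zero]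

/-- `φ` vanishes on tagged states other than the vacuum: then so do the results of these -/
lemma M_none (b c : Bool) (φ : Fn) {s : State} (h : tag b s)
    (hφ : ∀ s', tag b s' → s' ≠ G [] → φ s' = 0) (hs : ∀ L, s = G L → False) : Mf c φ s = 0 := by
  match s with
  | G L => exact (hs L rfl).elim
  | S t [] l => rw [Mf_S]; split_ifs <;> rfl
  | S t (k :: L) l =>
    have ht : t = b := h
    subst ht
    rw [Mf_S]
    split_ifs with ht
    · rcases hL : L[l]? with _ | _ | n
      · rw [md_s0 _ _ _ _ (by simpa using hL)]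
      · rw [md_s1 _ _ _ _ (by simpa using hL), hφ, neg_zero]
        · cases l
          · trivial
          · rfl
        · cases l <;> simp
      · rw [md_s2 _ _ _ _ n (by simpa using hL), hφ]
        · rfl
        · simp
    · cases k with
      | zero => rfl
      | succ k => rw [hd_S2, hφ (S t (k :: L) l) rfl (by simp)]

lemma M_none' (b c : Bool) (φ : Fn) {s : State} (h : tag b s)
    (hφ : ∀ s', tag b s' → s' ≠ G [] → φ s' = 0) : Mf c φ s = 0 := by
  match s with
  | G [] => rfl
  | G (0 :: L) => rfl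
  | G ((k + 1) :: L) => rw [Mf_G, hd_G2, hφ (G (k :: L)) trivial (by simp)]
  | S t L l => exact M_none b c φ h hφ (fun L h => by simp at h)

lemma R_none (b : Bool) (φ : Fn) {s : State} (h : tag b s)
    (hφ : ∀ s', tag b s' → s' ≠ G [] → φ s' = 0) : Rf b φ s = 0 := by
  match s with
  | G L => rfl
  | S t [] l => rw [Rf_S]; split_ifs <;> rfl
  | S t (k :: L) l =>
    have ht : t = b := h
    subst ht
    rw [Rf_S, if_pos rfl]
    rcases hL : L[l]? with _ | _ | n
    · rw [rm_s0 _ _ _ _ (by simpa using hL)]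
    · rw [rm_s1 _ _ _ _ (by simpa using hL), hφ, hφ, sub_zero]
      · cases l
        · trivial
        · rfl
      · cases l <;> simp
      · rfl
      · simp
    · rw [rm_s2 _ _ _ _ n (by simpa using hL)]

end Pool.Agent.R921.GRT
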